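import Pool.Agent.H94.Lift.Stage

/-!
# The search engine: glue for the part theorems

`part_cons`, `part_nil` for the list of masks `D2` of one mask `D1`, `parts_cons`, `parts_nil` for
the list of all.
-/

set_option autoImplicit false

namespace Pool.Agent.H94.Lift

section

variable {ext : ℕ → ℕ → ℕ → ℕ} {vio : ℕ → ℕ → Bool} {G : List ℕ} {Uc A : ℕ}

lemma part_nil {D1 : ℕ} : ∀ D2 ∈ ([] : List ℕ), ∃ e, search ext vio G Uc A D1 D2 e = true :=
  fun _ h => absurd h List.not_mem_nil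

lemma part_cons {D1 D2 : ℕ} {e : EX} {Ds : List ℕ} (h : search ext vio G Uc A D1 D2 e = true)
    (hs : ∀ D ∈ Ds, ∃ e, search ext vio G Uc A D1 D e = true) :
    ∀ D ∈ D2 :: Ds, ∃ e, search ext vio G Uc A D1 D e = true := by
  intro D hD
  rcases List.mem_cons.mp hD with rfl | hD
  · exact ⟨e, h⟩
  · exact hs D hD

lemma parts_nil : ∀ p ∈ ([] : List (ℕ × List ℕ)), ∀ D2 ∈ p.2,
    ∃ e, search ext vio G Uc A p.1 D2 e = true :=
  fun _ h => absurd h List.not_mem_nil

lemma parts_cons {D1 : ℕ} {Ds : List ℕ} {L : List (ℕ × List ℕ)}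
    (h : ∀ D ∈ Ds, ∃ e, search ext vio G Uc A D1 D e = true)
    (hs : ∀ p ∈ L, ∀ D2 ∈ p.2, ∃ e, search ext vio G Uc A p.1 D2 e = true) :
    ∀ p ∈ (D1, Ds) :: L, ∀ D2 ∈ p.2, ∃ e, search ext vio G Uc A p.1 D2 e = true := by
  intro p hp
  rcases List.mem_cons.mp hp with rfl | hp
  · exact h
  · exact hs p hp

end

end Pool.Agent.H94.Lift
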