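import Pool.Agent.H94.Lift.Consts

/-!
# The search engine: facts about bits
-/

set_option autoImplicit false

namespace Pool.Agent.H94.Lift

/-! ### codes -/

lemma val_lt3 (a : ZMod 3) : a.val < 3 := ZMod.val_lt a

lemma ix_le (g : V) : ix g ≤ 1562 := by
  have h0 := val_lt3 (g 0)
  have h1 := val_lt3 (g 1)
  have h2 := val_lt3 (g 2)
  have h3 := val_lt3 (g 3)
  have h4 := val_lt3 (g 4)
  simp only [ix, cd]
  omega

lemma cd_add (d e : Fin 5 → ℕ) : cd (fun i => d i + e i) = cd d + cd e := by
  simp only [cd]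
  ring

lemma val_two (a : ZMod 3) : a.val + (2 - a).val = 2 := by
  revert a; decide

lemma ix_two (g : V) : ix (two g) = 1562 - ix g := by
  have h0 := val_two (g 0)
  have h1 := val_two (g 1)
  have h2 := val_two (g 2)
  have h3 := val_two (g 3)
  have h4 := val_two (g 4)
  simp only [ix, cd, two]
  omega

/-- shift of a periodic block -/
lemma per_shift {N j : ℕ} {g t : V} (h : Per N j (t + g)) : Red (Nat.shiftRight N (ix g)) j t := by
  show (N >>> ix g).testBit _ = true
  rw [Nat.testBit_shiftRight]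
  have h1 := h (fun i => (g i).val + (t i).val) ?_ ?_
  · rw [cd_add] at h1
    have : ix g + (3136 * j + 4 + ix t) = 3136 * j + 4 + (cd (fun i => (g i).val) +
        cd (fun i => (t i).val)) := by
      simp only [ix]; ring
    rw [this]
    exact h1
  · intro i
    have h1 := val_lt3 (g i)
    have h2 := val_lt3 (t i)
    show (g i).val + (t i).val < 5
    omega
  · intro i
    show (((g i).val + (t i).val : ℕ) : ZMod 3) = t i + g i
    push_cast
    rw [ZMod.natCast_zmod_val, ZMod.natCast_zmod_val, add_comm]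

lemma per_shift_two {N j : ℕ} {g t : V} (h : Per N j (t + two g)) :
    Red (Nat.shiftRight N (Nat.sub 1562 (ix g))) j t := by
  have h1 := per_shift h
  rw [ix_two] at h1
  exact h1

lemma red_land {a b j : ℕ} {g : V} (ha : Red a j g) (hb : Red b j g) : Red (Nat.land a b) j g := by
  show (a &&& b).testBit _ = true
  rw [Nat.testBit_land]
  unfold Red at ha hb
  rw [ha, hb]
  rfl

lemma red_block {a i j : ℕ} {g : V} (ha : Red a (i + j) g) :
    Red (Nat.shiftRight a (3136 * i)) j g := by
  show (a >>> (3136 * i)).testBit _ = true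
  rw [Nat.testBit_shiftRight]
  unfold Red at ha
  rw [← ha]
  congr 1
  ring

lemma per_block {a i j : ℕ} {g : V} (ha : Per a (i + j) g) :
    Per (Nat.shiftRight a (3136 * i)) j g := by
  intro d hd hg
  show (a >>> (3136 * i)).testBit _ = true
  rw [Nat.testBit_shiftRight, ← ha d hd hg]
  congr 1
  ring

lemma cd_lt {d : Fin 5 → ℕ} (hd : ∀ i, d i < 5) : cd d ≤ 3124 := by
  have h0 := hd 0
  have h1 := hd 1
  have h2 := hd 2
  have h3 := hd 3
  have h4 := hd 4
  simp only [cd]
  omega

/-- a mask of blocks does not change the first blocks -/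
lemma per_mask {a j c : ℕ} {g : V} (ha : Per a j g) (hj : j < c) :
    Per (Nat.land a (Nat.sub (Nat.pow 2 (3136 * c)) 1)) j g := by
  intro d hd hg
  show (a &&& (2 ^ (3136 * c) - 1)).testBit _ = true
  rw [Nat.testBit_land, ha d hd hg, Nat.testBit_two_pow_sub_one, Bool.true_and, decide_eq_true_eq]
  have := cd_lt hd
  omega

/-! ### replication -/

/-- digits of the kind `i` are less than `b i` -/
def PerB (b : Fin 5 → ℕ) (N j : ℕ) (t : V) : Prop :=
  ∀ d : Fin 5 → ℕ, (∀ i, d i < b i) → (∀ i, ((d i : ℕ) : ZMod 3) = t i) →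
    N.testBit (3136 * j + 4 + cd d) = true

/-- all positions of the first `n` blocks with digit `i` at most one are set in `l` -/
def MaskOK (l : ℕ) (i : Fin 5) (n : ℕ) : Prop :=
  ∀ j < n, ∀ d : Fin 5 → ℕ, (∀ i, d i < 5) → d i < 2 → l.testBit (3136 * j + 4 + cd d) = true

/-- all positions of the first `n` blocks with digits at most two are set in `v` -/
def MaskV (v : ℕ) (n : ℕ) : Prop :=
  ∀ j < n, ∀ d : Fin 5 → ℕ, (∀ i, d i < 3) → v.testBit (3136 * j + 4 + cd d) = true

lemma perB_of_red {N j : ℕ} {t : V} (h : Red N j t) : PerB (fun _ => 3) N j t := by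
  intro d hd ht
  have h1 : d = fun i => (t i).val := by
    funext i
    rw [← ht i, ZMod.val_natCast, Nat.mod_eq_of_lt (hd i)]
  rw [h1]
  exact h

lemma perB_mask {v n N j : ℕ} {t : V} (hv : MaskV v n) (hj : j < n) (h : PerB (fun _ => 3) N j t) :
    PerB (fun _ => 3) (Nat.land N v) j t := by
  intro d hd ht
  show (N &&& v).testBit _ = true
  rw [Nat.testBit_land, h d hd ht, hv j hj d hd]
  rfl

lemma cd_update (d : Fin 5 → ℕ) (i : Fin 5) (x : ℕ) :
    cd (Function.update d i x) + d i * 5 ^ (i : ℕ) = cd d + x * 5 ^ (i : ℕ) := by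
  fin_cases i <;> simp [cd, Function.update] <;> ring

/-- one replication step -/
lemma perB_rp {l s n N j : ℕ} {t : V} {b : Fin 5 → ℕ} (i : Fin 5) (hb : b i = 3)
    (hb5 : ∀ k, b k ≤ 5)
    (hl : MaskOK l i n) (hj : j < n) (hs : s = 3 * 5 ^ (i : ℕ)) (h : PerB b N j t) :
    PerB (Function.update b i 5) (Nat.lor N (Nat.shiftLeft (Nat.land N l) s)) j t := by
  intro d hd ht
  show (N ||| ((N &&& l) <<< s)).testBit _ = true
  rw [Nat.testBit_lor, Nat.testBit_shiftLeft, Nat.testBit_land]
  have hdi : d i < 5 := by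
    have := hd i
    rwa [Function.update_self] at this
  have hdk : ∀ k, k ≠ i → d k < b k := by
    intro k hk
    have := hd k
    rwa [Function.update_of_ne hk] at this
  rcases lt_or_ge (d i) 3 with h3 | h3
  · have h1 : N.testBit (3136 * j + 4 + cd d) = true := by
      refine h d (fun k => ?_) ht
      by_cases hk : k = i
      · subst hk; rw [hb]; exact h3
      · exact hdk k hk
    rw [h1]
    rfl
  · set d' := Function.update d i (d i - 3) with hd'
    have hcd : cd d = cd d' + s := by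
      have := cd_update d i (d i - 3)
      rw [← hd'] at this
      have h4 : d i = (d i - 3) + 3 := by omega
      have h5 : d i * 5 ^ (i : ℕ) = (d i - 3) * 5 ^ (i : ℕ) + 3 * 5 ^ (i : ℕ) := by
        conv_lhs => rw [h4]
        ring
      rw [hs]
      omega
    have hd5 : ∀ k, d' k < 5 := by
      intro k
      by_cases hk : k = i
      · subst hk; rw [hd', Function.update_self]; omega
      · rw [hd', Function.update_of_ne hk]; exact lt_of_lt_of_le (hdk k hk) (hb5 k)
    have h1 : N.testBit (3136 * j + 4 + cd d') = true := by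
      refine h d' (fun k => ?_) (fun k => ?_)
      · by_cases hk : k = i
        · subst hk; rw [hd', Function.update_self, hb]; omega
        · rw [hd', Function.update_of_ne hk]; exact hdk k hk
      · by_cases hk : k = i
        · subst hk
          rw [hd', Function.update_self, ← ht k, Nat.cast_sub h3]
          have : ((3 : ℕ) : ZMod 3) = 0 := by decide
          rw [this, sub_zero]
        · rw [hd', Function.update_of_ne hk]; exact ht k
    have h2 : l.testBit (3136 * j + 4 + cd d') = true := by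
      refine hl j hj d' hd5 ?_
      rw [hd', Function.update_self]; omega
    have h6 : 3136 * j + 4 + cd d - s = 3136 * j + 4 + cd d' := by omega
    have h7 : 3136 * j + 4 + cd d ≥ s := by omega
    rw [h6, h1, h2, decide_eq_true h7]
    simp

/-- masks of a level -/
structure Masks (n v l0 l1 l2 l3 l4 : ℕ) : Prop where
  hv : MaskV v n
  h0 : MaskOK l0 0 n
  h1 : MaskOK l1 1 n
  h2 : MaskOK l2 2 n
  h3 : MaskOK l3 3 n
  h4 : MaskOK l4 4 n

lemma per_rep {n v l0 l1 l2 l3 l4 N j : ℕ} {t : V} (hm : Masks n v l0 l1 l2 l3 l4) (hj : j < n)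
    (h : Red N j t) : Per (rep v l0 l1 l2 l3 l4 N) j t := by
  have a := perB_mask hm.hv hj (perB_of_red h)
  have a0 := perB_rp (s := 3) 0 rfl (fun _ => by norm_num) hm.h0 hj rfl a
  have a1 := perB_rp (s := 15) 1 (by simp [Function.update]) (fun k => by
    fin_cases k <;> simp [Function.update]) hm.h1 hj (by norm_num) a0
  have a2 := perB_rp (s := 75) 2 (by simp [Function.update]) (fun k => by
    fin_cases k <;> simp [Function.update]) hm.h2 hj (by norm_num) a1
  have a3 := perB_rp (s := 375) 3 (by simp [Function.update]) (fun k => by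
    fin_cases k <;> simp [Function.update]) hm.h3 hj (by norm_num) a2
  have a4 := perB_rp (s := 1875) 4 (by simp [Function.update]) (fun k => by
    fin_cases k <;> simp [Function.update]) hm.h4 hj (by norm_num) a3
  intro d hd ht
  refine a4 d (fun i => ?_) ht
  have := hd i
  fin_cases i <;> simpa [Function.update] using this

lemma masks_zero (v l0 l1 l2 l3 l4 : ℕ) : Masks 0 v l0 l1 l2 l3 l4 where
  hv j hj := absurd hj (Nat.not_lt_zero j)
  h0 j hj := absurd hj (Nat.not_lt_zero j)
  h1 j hj := absurd hj (Nat.not_lt_zero j)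
  h2 j hj := absurd hj (Nat.not_lt_zero j)
  h3 j hj := absurd hj (Nat.not_lt_zero j)
  h4 j hj := absurd hj (Nat.not_lt_zero j)

lemma MaskOK.mono {l : ℕ} {i : Fin 5} {n m : ℕ} (h : MaskOK l i n) (hm : m ≤ n) : MaskOK l i m :=
  fun j hj => h j (lt_of_lt_of_le hj hm)

lemma MaskV.mono {l : ℕ} {n m : ℕ} (h : MaskV l n) (hm : m ≤ n) : MaskV l m :=
  fun j hj => h j (lt_of_lt_of_le hj hm)

lemma Masks.mono {n m v l0 l1 l2 l3 l4 : ℕ} (h : Masks n v l0 l1 l2 l3 l4) (hm : m ≤ n) :
    Masks m v l0 l1 l2 l3 l4 where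
  hv := h.hv.mono hm
  h0 := h.h0.mono hm
  h1 := h.h1.mono hm
  h2 := h.h2.mono hm
  h3 := h.h3.mono hm
  h4 := h.h4.mono hm

lemma testBit_dbl_low {s X k : ℕ} (h : X.testBit k = true) : (dbl s X).testBit k = true := by
  show (X ||| (X <<< s)).testBit k = true
  rw [Nat.testBit_lor, h]; rfl

lemma testBit_dbl_high {s X k : ℕ} (h : X.testBit k = true) :
    (dbl s X).testBit (k + s) = true := by
  show (X ||| (X <<< s)).testBit _ = true
  rw [Nat.testBit_lor, Nat.testBit_shiftLeft]
  have h1 : k + s - s = k := by omega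
  rw [h1, h]
  simp

lemma MaskOK.dbl {l : ℕ} {i : Fin 5} {n s : ℕ} (h : MaskOK l i n) (hs : s = 3136 * n) :
    MaskOK (dbl s l) i (2 * n) := by
  intro j hj d hd hdi
  rcases lt_or_ge j n with hn | hn
  · exact testBit_dbl_low (h j hn d hd hdi)
  · have h1 := testBit_dbl_high (s := s) (h (j - n) (by omega) d hd hdi)
    have h2 : 3136 * (j - n) + 4 + cd d + s = 3136 * j + 4 + cd d := by omega
    rwa [h2] at h1

lemma MaskV.dbl {l : ℕ} {n s : ℕ} (h : MaskV l n) (hs : s = 3136 * n) :
    MaskV (dbl s l) (2 * n) := by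
  intro j hj d hd
  rcases lt_or_ge j n with hn | hn
  · exact testBit_dbl_low (h j hn d hd)
  · have h1 := testBit_dbl_high (s := s) (h (j - n) (by omega) d hd)
    have h2 : 3136 * (j - n) + 4 + cd d + s = 3136 * j + 4 + cd d := by omega
    rwa [h2] at h1

/-! ### the masks of the file of constants -/

/-- loop over all codes below `n` -/
def allBelow (n : ℕ) (f : ℕ → Bool) : Bool :=
  Nat.rec (motive := fun _ => Bool) true (fun k ih => Bool.rec (motive := fun _ => Bool) false ih (f k)) n

lemma allBelow_spec {n : ℕ} {f : ℕ → Bool} (h : allBelow n f = true) : ∀ k < n, f k = true := by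
  induction n with
  | zero => intro k hk; omega
  | succ n ih =>
    have h' : (Bool.rec (motive := fun _ => Bool) false (allBelow n f) (f n) : Bool) = true := h
    cases hp : f n with
    | false => rw [hp] at h'; exact absurd h' (by simp)
    | true =>
      rw [hp] at h'
      intro k hk
      rcases Nat.lt_succ_iff_lt_or_eq.mp hk with h1 | h1
      · exact ih h' k h1
      · rw [h1]; exact hp

/-- bit test with raw operations -/
def tbit (X k : ℕ) : Bool := Nat.beq (Nat.land (Nat.shiftRight X k) 1) 1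

lemma tbit_eq {X k : ℕ} (h : tbit X k = true) : X.testBit k = true := by
  have h1 : (X >>> k) &&& 1 = 1 := by
    have := Nat.eq_of_beq_eq_true h
    exact this
  rw [Nat.testBit, Nat.and_comm, h1]
  rfl

/-- check of a one block mask -/
def chkB (l b0 b1 b2 b3 b4 : ℕ) : Bool :=
  allBelow b0 fun a => allBelow b1 fun b => allBelow b2 fun c => allBelow b3 fun d =>
    allBelow b4 fun e =>
      tbit l (Nat.add 4 (Nat.add a (Nat.add (Nat.mul 5 b) (Nat.add (Nat.mul 25 c)
        (Nat.add (Nat.mul 125 d) (Nat.mul 625 e))))))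

lemma chkB_spec {l b0 b1 b2 b3 b4 : ℕ} (h : chkB l b0 b1 b2 b3 b4 = true) (d : Fin 5 → ℕ)
    (h0 : d 0 < b0) (h1 : d 1 < b1) (h2 : d 2 < b2) (h3 : d 3 < b3) (h4 : d 4 < b4) :
    l.testBit (3136 * 0 + 4 + cd d) = true := by
  have h5 := allBelow_spec (allBelow_spec (allBelow_spec (allBelow_spec (allBelow_spec h (d 0) h0)
    (d 1) h1) (d 2) h2) (d 3) h3) (d 4) h4
  have h6 := tbit_eq h5
  have h7 : 3136 * 0 + 4 + cd d = Nat.add 4 (Nat.add (d 0) (Nat.add (Nat.mul 5 (d 1)) (Nat.add
      (Nat.mul 25 (d 2)) (Nat.add (Nat.mul 125 (d 3)) (Nat.mul 625 (d 4)))))) := by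
    show 3136 * 0 + 4 + cd d = 4 + (d 0 + (5 * d 1 + (25 * d 2 + (125 * d 3 + 625 * d 4))))
    simp only [cd]; ring
  rw [h7]
  exact h6

lemma chkV_spec {v : ℕ} (h : chkB v 3 3 3 3 3 = true) : MaskV v 1 := by
  intro j hj d hd
  have hj0 : j = 0 := by omega
  subst hj0
  exact chkB_spec h d (hd 0) (hd 1) (hd 2) (hd 3) (hd 4)

lemma chkL0_spec {v : ℕ} (h : chkB v 2 5 5 5 5 = true) : MaskOK v 0 1 := by
  intro j hj d hd hdi
  have hj0 : j = 0 := by omega
  subst hj0
  exact chkB_spec h d hdi (hd 1) (hd 2) (hd 3) (hd 4)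

lemma chkL1_spec {v : ℕ} (h : chkB v 5 2 5 5 5 = true) : MaskOK v 1 1 := by
  intro j hj d hd hdi
  have hj0 : j = 0 := by omega
  subst hj0
  exact chkB_spec h d (hd 0) hdi (hd 2) (hd 3) (hd 4)

lemma chkL2_spec {v : ℕ} (h : chkB v 5 5 2 5 5 = true) : MaskOK v 2 1 := by
  intro j hj d hd hdi
  have hj0 : j = 0 := by omega
  subst hj0
  exact chkB_spec h d (hd 0) (hd 1) hdi (hd 3) (hd 4)

lemma chkL3_spec {v : ℕ} (h : chkB v 5 5 5 2 5 = true) : MaskOK v 3 1 := by
  intro j hj d hd hdi
  have hj0 : j = 0 := by omega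
  subst hj0
  exact chkB_spec h d (hd 0) (hd 1) (hd 2) hdi (hd 4)

lemma chkL4_spec {v : ℕ} (h : chkB v 5 5 5 5 2 = true) : MaskOK v 4 1 := by
  intro j hj d hd hdi
  have hj0 : j = 0 := by omega
  subst hj0
  exact chkB_spec h d (hd 0) (hd 1) (hd 2) (hd 3) hdi

end Pool.Agent.H94.Lift
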