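import Pool.Agent.H94.Lift.Sound

/-!
# The search engine: soundness
-/

set_option autoImplicit false

namespace Pool.Agent.H94.Lift

/-! ### refutation trees -/

lemma testBit0_xor {D p : ℕ} (h : D.testBit 0 = true) :
    (Nat.xor D (Nat.shiftLeft 16 p)).testBit 0 = true := testBit_xor_ne (by omega) h

theorem chk_sound {F : ℕ → V} {ext : ℕ → ℕ → ℕ → ℕ} {vio : ℕ → ℕ → Bool} (fb : FB F ext vio)
    (t : FT) : ∀ A D w U, fb.Ok A → (∀ j < 7, Red U j (F (5 + j))) →
    (D.testBit (4 + ix (F (5 + w))) = true ∨ D.testBit 0 = true) → t.chk ext vio A D w U = true →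
    False := by
  induction t with
  | rel B => intro A D w U hA _ _ h; exact fb.vio_ok A B hA h
  | br w l ih =>
    intro A D w' U hA hU _ h
    have h1 : (Bool.rec (motive := fun _ => Bool) false
      (l.chk ext vio A (Nat.mod (Nat.shiftRight U (Nat.mul 3136 w)) (Nat.pow 2 3136)) w U)
      (Nat.ble w 6) : Bool) = true := h
    cases hw : Nat.ble w 6 with
    | false => rw [hw] at h1; exact absurd h1 (by simp)
    | true =>
      rw [hw] at h1
      have hw6 : w ≤ 6 := Nat.le_of_ble_eq_true hw
      refine ih A _ w U hA hU (Or.inl ?_) h1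
      show ((U >>> (3136 * w)) % 2 ^ 3136).testBit _ = true
      have h2 := hU w (by omega)
      unfold Red at h2
      have h3 := ix_le (F (5 + w))
      rw [Nat.testBit_mod_two_pow, Nat.testBit_shiftRight, decide_eq_true (by omega), Bool.true_and,
        ← h2]
      congr 1
      ring
  | nil =>
    intro A D w U _ _ hD h
    have h1 : D = 0 := Nat.eq_of_beq_eq_true h
    rw [h1, Nat.zero_testBit, Nat.zero_testBit] at hD
    rcases hD with h | h <;> exact absurd h (by simp)
  | cons t l iht ihl =>
    intro A D w U hA hU hD h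
    have h1 : (Bool.rec (motive := fun _ => Bool) false
      (l.chk ext vio A (Nat.xor D (Nat.shiftLeft 16 (Nat.land (Nat.shiftRight tb
        (Nat.mod (Nat.gcd D two1600) 25904)) 65535))) w U)
      (t.chk ext vio (ext A (Nat.add 5 w) (Nat.land (Nat.shiftRight tb
        (Nat.mod (Nat.gcd D two1600) 25904)) 65535)) 1 0 U) : Bool) = true := h
    generalize Nat.land (Nat.shiftRight tb (Nat.mod (Nat.gcd D two1600) 25904)) 65535 = p at h1
    cases ht : t.chk ext vio (ext A (Nat.add 5 w) p) 1 0 U with
    | false => rw [ht] at h1; exact absurd h1 (by simp)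
    | true =>
      rw [ht] at h1
      rcases hD with hD | hD
      · by_cases hp : p = ix (F (5 + w))
        · refine iht _ 1 0 U ?_ hU (Or.inr (by decide)) ht
          rw [hp]
          exact fb.ext_ok A (5 + w) hA
        · exact ihl A _ w U hA hU (Or.inl (testBit_xor_ne (by omega) hD)) h1
      · exact ihl A _ w U hA hU (Or.inr (testBit0_xor hD)) h1

lemma look_spec (e : EX) (key : ℕ) (f : FT → Bool) (h : e.look key f = true) : ∃ t, f t = true := by
  induction e with
  | leaf => exact absurd h (by simp [EX.look])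
  | node l k t r ihl ihr =>
    have h1 : (Bool.rec (motive := fun _ => Bool)
      (Bool.rec (motive := fun _ => Bool) (r.look key f) (l.look key f) (Nat.ble key k)) (f t)
      (Nat.beq key k) : Bool) = true := h
    cases hk : Nat.beq key k with
    | true => rw [hk] at h1; exact ⟨t, h1⟩
    | false =>
      rw [hk] at h1
      cases hk2 : Nat.ble key k with
      | true => rw [hk2] at h1; exact ihl h1
      | false => rw [hk2] at h1; exact ihr h1

theorem fin_sound {F : ℕ → V} {ext : ℕ → ℕ → ℕ → ℕ} {vio : ℕ → ℕ → Bool} (fb : FB F ext vio)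
    (e : EX) : Snd fb (fin ext vio e) [] [F 5, F 6, F 7, F 8, F 9, F 10, F 11] := by
  intro U N A key hU _ _ hA h
  obtain ⟨t, ht⟩ := look_spec e key _ h
  refine chk_sound fb t A 1 0 U hA ?_ (Or.inr (by decide)) ht
  intro j hj
  apply hU j
  interval_cases j <;> rfl

end Pool.Agent.H94.Lift
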