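import Pool.Agent.H94.Lift.Bits

/-!
# The search engine: the masks of the file of constants are correct
-/

set_option autoImplicit false

namespace Pool.Agent.H94.Lift

lemma chk_vv : chkB vv 3 3 3 3 3 = true := by decide +kernel

lemma chk_ll0 : chkB ll0 2 5 5 5 5 = true := by decide +kernel

lemma chk_ll1 : chkB ll1 5 2 5 5 5 = true := by decide +kernel

lemma chk_ll2 : chkB ll2 5 5 2 5 5 = true := by decide +kernel

lemma chk_ll3 : chkB ll3 5 5 5 2 5 = true := by decide +kernel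

lemma chk_ll4 : chkB ll4 5 5 5 5 2 = true := by decide +kernel

lemma e16_vv : Nat.beq vvw16 (dbl 25088 (dbl 12544 (dbl 6272 (dbl 3136 vv)))) = true := by decide +kernel

lemma e64_vv : Nat.beq vvw64 (dbl 100352 (dbl 50176 vvw16)) = true := by decide +kernel

lemma e16_ll0 : Nat.beq ll0w16 (dbl 25088 (dbl 12544 (dbl 6272 (dbl 3136 ll0)))) = true := by decide +kernel

lemma e64_ll0 : Nat.beq ll0w64 (dbl 100352 (dbl 50176 ll0w16)) = true := by decide +kernel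

lemma e16_ll1 : Nat.beq ll1w16 (dbl 25088 (dbl 12544 (dbl 6272 (dbl 3136 ll1)))) = true := by decide +kernel

lemma e64_ll1 : Nat.beq ll1w64 (dbl 100352 (dbl 50176 ll1w16)) = true := by decide +kernel

lemma e16_ll2 : Nat.beq ll2w16 (dbl 25088 (dbl 12544 (dbl 6272 (dbl 3136 ll2)))) = true := by decide +kernel

lemma e64_ll2 : Nat.beq ll2w64 (dbl 100352 (dbl 50176 ll2w16)) = true := by decide +kernel

lemma e16_ll3 : Nat.beq ll3w16 (dbl 25088 (dbl 12544 (dbl 6272 (dbl 3136 ll3)))) = true := by decide +kernel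

lemma e64_ll3 : Nat.beq ll3w64 (dbl 100352 (dbl 50176 ll3w16)) = true := by decide +kernel

lemma e16_ll4 : Nat.beq ll4w16 (dbl 25088 (dbl 12544 (dbl 6272 (dbl 3136 ll4)))) = true := by decide +kernel

lemma e64_ll4 : Nat.beq ll4w64 (dbl 100352 (dbl 50176 ll4w16)) = true := by decide +kernel

lemma maskV16 : MaskV vvw16 16 := by
  rw [Nat.eq_of_beq_eq_true e16_vv]
  exact ((((chkV_spec chk_vv).dbl rfl).dbl rfl).dbl rfl).dbl rfl

lemma maskV64 : MaskV vvw64 64 := by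
  rw [Nat.eq_of_beq_eq_true e64_vv]
  exact (maskV16.dbl rfl).dbl rfl

lemma maskV256 : MaskV vvw256 256 := (maskV64.dbl rfl).dbl rfl

lemma maskV1024 : MaskV vvw1024 1024 := (maskV256.dbl rfl).dbl rfl

lemma mask16_0 : MaskOK ll0w16 0 16 := by
  rw [Nat.eq_of_beq_eq_true e16_ll0]
  exact ((((chkL0_spec chk_ll0).dbl rfl).dbl rfl).dbl rfl).dbl rfl

lemma mask64_0 : MaskOK ll0w64 0 64 := by
  rw [Nat.eq_of_beq_eq_true e64_ll0]
  exact (mask16_0.dbl rfl).dbl rfl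

lemma mask256_0 : MaskOK ll0w256 0 256 := (mask64_0.dbl rfl).dbl rfl

lemma mask1024_0 : MaskOK ll0w1024 0 1024 := (mask256_0.dbl rfl).dbl rfl

lemma mask16_1 : MaskOK ll1w16 1 16 := by
  rw [Nat.eq_of_beq_eq_true e16_ll1]
  exact ((((chkL1_spec chk_ll1).dbl rfl).dbl rfl).dbl rfl).dbl rfl

lemma mask64_1 : MaskOK ll1w64 1 64 := by
  rw [Nat.eq_of_beq_eq_true e64_ll1]
  exact (mask16_1.dbl rfl).dbl rfl

lemma mask256_1 : MaskOK ll1w256 1 256 := (mask64_1.dbl rfl).dbl rfl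

lemma mask1024_1 : MaskOK ll1w1024 1 1024 := (mask256_1.dbl rfl).dbl rfl

lemma mask16_2 : MaskOK ll2w16 2 16 := by
  rw [Nat.eq_of_beq_eq_true e16_ll2]
  exact ((((chkL2_spec chk_ll2).dbl rfl).dbl rfl).dbl rfl).dbl rfl

lemma mask64_2 : MaskOK ll2w64 2 64 := by
  rw [Nat.eq_of_beq_eq_true e64_ll2]
  exact (mask16_2.dbl rfl).dbl rfl

lemma mask256_2 : MaskOK ll2w256 2 256 := (mask64_2.dbl rfl).dbl rfl

lemma mask1024_2 : MaskOK ll2w1024 2 1024 := (mask256_2.dbl rfl).dbl rfl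

lemma mask16_3 : MaskOK ll3w16 3 16 := by
  rw [Nat.eq_of_beq_eq_true e16_ll3]
  exact ((((chkL3_spec chk_ll3).dbl rfl).dbl rfl).dbl rfl).dbl rfl

lemma mask64_3 : MaskOK ll3w64 3 64 := by
  rw [Nat.eq_of_beq_eq_true e64_ll3]
  exact (mask16_3.dbl rfl).dbl rfl

lemma mask256_3 : MaskOK ll3w256 3 256 := (mask64_3.dbl rfl).dbl rfl

lemma mask1024_3 : MaskOK ll3w1024 3 1024 := (mask256_3.dbl rfl).dbl rfl

lemma mask16_4 : MaskOK ll4w16 4 16 := by
  rw [Nat.eq_of_beq_eq_true e16_ll4]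
  exact ((((chkL4_spec chk_ll4).dbl rfl).dbl rfl).dbl rfl).dbl rfl

lemma mask64_4 : MaskOK ll4w64 4 64 := by
  rw [Nat.eq_of_beq_eq_true e64_ll4]
  exact (mask16_4.dbl rfl).dbl rfl

lemma mask256_4 : MaskOK ll4w256 4 256 := (mask64_4.dbl rfl).dbl rfl

lemma mask1024_4 : MaskOK ll4w1024 4 1024 := (mask256_4.dbl rfl).dbl rfl

lemma masks16 : Masks 16 vvw16 ll0w16 ll1w16 ll2w16 ll3w16 ll4w16 :=
  ⟨maskV16, mask16_0, mask16_1, mask16_2, mask16_3, mask16_4⟩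

lemma masks64 : Masks 64 vvw64 ll0w64 ll1w64 ll2w64 ll3w64 ll4w64 :=
  ⟨maskV64, mask64_0, mask64_1, mask64_2, mask64_3, mask64_4⟩

lemma masks256 : Masks 256 vvw256 ll0w256 ll1w256 ll2w256 ll3w256 ll4w256 :=
  ⟨maskV256, mask256_0, mask256_1, mask256_2, mask256_3, mask256_4⟩

lemma masks1024 : Masks 1024 vvw1024 ll0w1024 ll1w1024 ll2w1024 ll3w1024 ll4w1024 :=
  ⟨maskV1024, mask1024_0, mask1024_1, mask1024_2, mask1024_3, mask1024_4⟩

end Pool.Agent.H94.Lift
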