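import Pool.Agent.H94.Lift.RootData

/-!
# The search engine: the root and the final theorem
-/

set_option autoImplicit false

namespace Pool.Agent.H94.Lift

/-! ### the spread of the compact form -/

lemma bsp_low {m0 m1 s X k : ℕ} (hX : X.testBit k = true) (hm : m0.testBit k = true) :
    (bsp m0 m1 s X).testBit k = true := by
  show ((X &&& m0) ||| ((X &&& m1) <<< s)).testBit k = true
  rw [Nat.testBit_lor, Nat.testBit_land, hX, hm]; rfl

lemma bsp_high {m0 m1 s X k : ℕ} (hX : X.testBit k = true) (hm : m1.testBit k = true) :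
    (bsp m0 m1 s X).testBit (k + s) = true := by
  show ((X &&& m0) ||| ((X &&& m1) <<< s)).testBit (k + s) = true
  rw [Nat.testBit_lor, Nat.testBit_shiftLeft, Nat.testBit_land, Nat.add_sub_cancel, Nat.testBit_land,
    hX, hm]
  simp

lemma dsp0 {m0 m1 m2 s X k : ℕ} (hX : X.testBit k = true) (hm : m0.testBit k = true) :
    (dsp m0 m1 m2 s X).testBit k = true := by
  show (((X &&& m0) ||| ((X &&& m1) <<< s)) ||| ((X &&& m2) <<< (2 * s))).testBit k = true
  rw [Nat.testBit_lor, Nat.testBit_lor, Nat.testBit_land, hX, hm]; rfl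

lemma dsp1 {m0 m1 m2 s X k : ℕ} (hX : X.testBit k = true) (hm : m1.testBit k = true) :
    (dsp m0 m1 m2 s X).testBit (k + s) = true := by
  show (((X &&& m0) ||| ((X &&& m1) <<< s)) ||| ((X &&& m2) <<< (2 * s))).testBit (k + s) = true
  rw [Nat.testBit_lor, Nat.testBit_lor, Nat.testBit_shiftLeft (x := X &&& m1), Nat.add_sub_cancel,
    Nat.testBit_land (m := X) (n := m1), hX, hm]
  simp

lemma dsp2 {m0 m1 m2 s X k : ℕ} (hX : X.testBit k = true) (hm : m2.testBit k = true) :
    (dsp m0 m1 m2 s X).testBit (k + 2 * s) = true := by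
  show (((X &&& m0) ||| ((X &&& m1) <<< s)) ||| ((X &&& m2) <<< (2 * s))).testBit (k + 2 * s) = true
  rw [Nat.testBit_lor, Nat.testBit_shiftLeft (x := X &&& m2), Nat.add_sub_cancel,
    Nat.testBit_land (m := X) (n := m2), hX, hm]
  simp

lemma mask243 {m pos o : ℕ} (h : Nat.beq (Nat.land (Nat.shiftRight m pos) (Nat.sub (Nat.pow 2 243) 1))
    (Nat.sub (Nat.pow 2 243) 1) = true) (ho : o < 243) : m.testBit (pos + o) = true := by
  have h1 : (m >>> pos) &&& (2 ^ 243 - 1) = 2 ^ 243 - 1 := Nat.eq_of_beq_eq_true h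
  have h2 : ((m >>> pos) &&& (2 ^ 243 - 1)).testBit o = true := by
    rw [h1, Nat.testBit_two_pow_sub_one, decide_eq_true ho]
  rw [Nat.testBit_land, Nat.testBit_shiftRight, Bool.and_eq_true] at h2
  exact h2.1

/-- position of the bit `o` of the block `j` when the index is distributed down to the bit `b` -/
def bpos (b j o : ℕ) : ℕ := j / 2 ^ b * 2 ^ b * 3136 + j % 2 ^ b * 256 + o

lemma bsp_step {m0 m1 s X b j o : ℕ} (hj : j < 64) (ho : o < 243) (hs : s = 2 ^ b * 2880)
    (hc : allBelow 64 (fun j => Bool.rec (motive := fun _ => Bool)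
    (Nat.beq (Nat.land (Nat.shiftRight m0 (Nat.add (Nat.mul (Nat.mul (Nat.div j (2 ^ (b + 1)))
      (2 ^ (b + 1))) 3136)
      (Nat.mul (Nat.mod j (2 ^ (b + 1))) 256))) (Nat.sub (Nat.pow 2 243) 1)) (Nat.sub (Nat.pow 2 243) 1))
    (Nat.beq (Nat.land (Nat.shiftRight m1 (Nat.add (Nat.mul (Nat.mul (Nat.div j (2 ^ (b + 1)))
      (2 ^ (b + 1))) 3136)
      (Nat.mul (Nat.mod j (2 ^ (b + 1))) 256))) (Nat.sub (Nat.pow 2 243) 1)) (Nat.sub (Nat.pow 2 243) 1))
    (Nat.beq (Nat.mod (Nat.div j (2 ^ b)) 2) 1)) = true)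
    (hX : X.testBit (bpos (b + 1) j o) = true) : (bsp m0 m1 s X).testBit (bpos b j o) = true := by
  have h1 := allBelow_spec hc j hj
  have e1 : (2 : ℕ) ^ (b + 1) = 2 * 2 ^ b := by rw [pow_succ]; ring
  have e2 : j / (2 * 2 ^ b) = j / 2 ^ b / 2 := by
    rw [Nat.mul_comm, Nat.div_div_eq_div_mul]
  have e3 : 2 ^ b * (j / 2 ^ b) + j % 2 ^ b = j := Nat.div_add_mod _ _
  have e4 : 2 ^ (b + 1) * (j / 2 ^ (b + 1)) + j % 2 ^ (b + 1) = j := Nat.div_add_mod _ _
  have e5 : 2 * (j / 2 ^ b / 2) + j / 2 ^ b % 2 = j / 2 ^ b := Nat.div_add_mod _ _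
  cases hb : Nat.beq (Nat.mod (Nat.div j (2 ^ b)) 2) 1 with
  | false =>
    rw [hb] at h1
    have h2 := mask243 h1 ho
    have h3 : bpos (b + 1) j o = bpos b j o := by
      have h4 : j / 2 ^ b % 2 ≠ 1 := by
        intro h5
        have h6 : Nat.mod (Nat.div j (2 ^ b)) 2 = 1 := h5
        rw [h6] at hb
        exact absurd hb (by decide)
      have h5 : j / 2 ^ b % 2 = 0 := by omega
      unfold bpos
      rw [e1, e2] at *
      have h6 : j / 2 ^ b / 2 * (2 * 2 ^ b) = j / 2 ^ b * 2 ^ b := by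
        have : j / 2 ^ b = 2 * (j / 2 ^ b / 2) := by omega
        conv_rhs => rw [this]
        ring
      have h7 : j % (2 * 2 ^ b) = j % 2 ^ b := by
        have h8 : 2 * 2 ^ b * (j / 2 ^ b / 2) = j / 2 ^ b / 2 * (2 * 2 ^ b) := by ring
        have h9 : 2 ^ b * (j / 2 ^ b) = j / 2 ^ b * 2 ^ b := by ring
        omega
      rw [h6, h7]
    rw [h3] at hX
    refine bsp_low hX ?_
    rw [← h3]
    exact h2
  | true =>
    rw [hb] at h1
    have h2 := mask243 h1 ho
    have h3 : bpos (b + 1) j o + s = bpos b j o := by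
      have h4 : j / 2 ^ b % 2 = 1 := Nat.eq_of_beq_eq_true hb
      unfold bpos
      rw [e1, e2] at *
      have h6 : j / 2 ^ b * 2 ^ b = j / 2 ^ b / 2 * (2 * 2 ^ b) + 2 ^ b := by
        have : j / 2 ^ b = 2 * (j / 2 ^ b / 2) + 1 := by omega
        conv_lhs => rw [this]
        ring
      have h7 : j % (2 * 2 ^ b) = j % 2 ^ b + 2 ^ b := by
        have h8 : 2 * 2 ^ b * (j / 2 ^ b / 2) = j / 2 ^ b / 2 * (2 * 2 ^ b) := by ring
        have h9 : 2 ^ b * (j / 2 ^ b) = j / 2 ^ b * 2 ^ b := by ring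
        omega
      rw [h6, h7, hs]
      ring
    rw [← h3]
    refine bsp_high hX ?_
    exact h2

lemma tile_spec {m j o : ℕ} (hj : j < 64) (hm : Nat.beq m (dbl 100352 (dbl 50176 (dbl 25088
    (dbl 12544 (dbl 6272 (dbl 3136 (Nat.land m cP))))))) = true)
    (h : (Nat.land m cP).testBit o = true) : m.testBit (3136 * j + o) = true := by
  rw [Nat.eq_of_beq_eq_true hm]
  have key : ∀ (X n s : ℕ), s = 3136 * n → (∀ j < n, X.testBit (3136 * j + o) = true) →
      ∀ j < 2 * n, (dbl s X).testBit (3136 * j + o) = true := by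
    intro X n s hs hX j hj
    rcases lt_or_ge j n with hn | hn
    · exact testBit_dbl_low (hX j hn)
    · have h1 := testBit_dbl_high (s := s) (hX (j - n) (by omega))
      have h2 : 3136 * (j - n) + o + s = 3136 * j + o := by omega
      rwa [h2] at h1
  refine key _ 32 _ rfl (key _ 16 _ rfl (key _ 8 _ rfl (key _ 4 _ rfl (key _ 2 _ rfl
    (key _ 1 _ rfl ?_))))) j hj
  intro i hi
  have hi0 : i = 0 := by omega
  subst hi0
  rw [Nat.mul_zero, Nat.zero_add]
  exact h

lemma chkS_spec {m base a b c d : ℕ} (h : chkS m base a b c d = true) {x y z u : ℕ} (hx : x < 3)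
    (hy : y < 3) (hz : z < 3) (hu : u < 3) :
    m.testBit (base + (a * x + (b * y + (c * z + d * u)))) = true :=
  tbit_eq (allBelow_spec (allBelow_spec (allBelow_spec (allBelow_spec h x hx) y hy) z hz) u hu)

lemma dsp_step {m0 m1 m2 s X j e pos : ℕ} (he : e < 3) (hX : X.testBit (3136 * j + pos) = true)
    (h0 : e = 0 → m0.testBit (3136 * j + pos) = true)
    (h1 : e = 1 → m1.testBit (3136 * j + pos) = true)
    (h2 : e = 2 → m2.testBit (3136 * j + pos) = true) :
    (dsp m0 m1 m2 s X).testBit (3136 * j + (pos + s * e)) = true := by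
  interval_cases e
  · exact dsp0 hX (h0 rfl)
  · have := dsp1 (m0 := m0) (m2 := m2) (s := s) hX (h1 rfl)
    rw [mul_one, ← Nat.add_assoc]
    exact this
  · have := dsp2 (m0 := m0) (m1 := m1) (s := s) hX (h2 rfl)
    rw [← Nat.add_assoc, Nat.mul_comm s 2]
    exact this

/-- from the compact form to radix 5 -/
lemma red64_spec {X j : ℕ} (hj : j < 64) (t : V) (hX : X.testBit (256 * j + i3 t) = true) :
    Red (red64 X) j t := by
  have h0 := val_lt3 (t 0)
  have h1 := val_lt3 (t 1)
  have h2 := val_lt3 (t 2)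
  have h3 := val_lt3 (t 3)
  have h4 := val_lt3 (t 4)
  set d0 := (t 0).val with hd0
  set d1 := (t 1).val with hd1
  set d2 := (t 2).val with hd2
  set d3 := (t 3).val with hd3
  set d4 := (t 4).val with hd4
  have hi3 : i3 t = d0 + 3 * d1 + 9 * d2 + 27 * d3 + 81 * d4 := rfl
  have ho : i3 t < 243 := by rw [hi3]; omega
  have b6 : X.testBit (bpos 6 j (i3 t)) = true := by
    have : bpos 6 j (i3 t) = 256 * j + i3 t := by
      unfold bpos
      have e1 : j / 2 ^ 6 = 0 := Nat.div_eq_of_lt hj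
      have e2 : j % 2 ^ 6 = j := Nat.mod_eq_of_lt hj
      rw [e1, e2]; ring
    rw [this]; exact hX
  have b5 := bsp_step hj ho (b := 5) (s := 92160) (by norm_num) c_bs5 b6
  have b4 := bsp_step hj ho (b := 4) (s := 46080) (by norm_num) c_bs4 b5
  have b3 := bsp_step hj ho (b := 3) (s := 23040) (by norm_num) c_bs3 b4
  have b2 := bsp_step hj ho (b := 2) (s := 11520) (by norm_num) c_bs2 b3
  have b1 := bsp_step hj ho (b := 1) (s := 5760) (by norm_num) c_bs1 b2
  have b0 := bsp_step hj ho (b := 0) (s := 2880) (by norm_num) c_bs0 b1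
  have hb : bpos 0 j (i3 t) = 3136 * j + i3 t := by
    unfold bpos
    rw [pow_zero, Nat.div_one, Nat.mod_one]; ring
  rw [hb, hi3] at b0
  have a4 := dsp_step (m0 := dg40) (m1 := dg41) (m2 := dg42) (s := 544) h4 b0
    (fun e => tile_spec hj t_dg40 (by
      have := chkS_spec c_dg40 h0 h1 h2 h3
      rw [e]; convert this using 2; ring))
    (fun e => tile_spec hj t_dg41 (by
      have := chkS_spec c_dg41 h0 h1 h2 h3
      rw [e]; convert this using 2; ring))
    (fun e => tile_spec hj t_dg42 (by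
      have := chkS_spec c_dg42 h0 h1 h2 h3
      rw [e]; convert this using 2; ring))
  have a3 := dsp_step (m0 := dg30) (m1 := dg31) (m2 := dg32) (s := 98) h3 a4
    (fun e => tile_spec hj t_dg30 (by
      have := chkS_spec c_dg30 h0 h1 h2 h4
      rw [e]; convert this using 2; ring))
    (fun e => tile_spec hj t_dg31 (by
      have := chkS_spec c_dg31 h0 h1 h2 h4
      rw [e]; convert this using 2; ring))
    (fun e => tile_spec hj t_dg32 (by
      have := chkS_spec c_dg32 h0 h1 h2 h4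
      rw [e]; convert this using 2; ring))
  have a2 := dsp_step (m0 := dg20) (m1 := dg21) (m2 := dg22) (s := 16) h2 a3
    (fun e => tile_spec hj t_dg20 (by
      have := chkS_spec c_dg20 h0 h1 h3 h4
      rw [e]; convert this using 2; ring))
    (fun e => tile_spec hj t_dg21 (by
      have := chkS_spec c_dg21 h0 h1 h3 h4
      rw [e]; convert this using 2; ring))
    (fun e => tile_spec hj t_dg22 (by
      have := chkS_spec c_dg22 h0 h1 h3 h4
      rw [e]; convert this using 2; ring))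
  have a1 := dsp_step (m0 := dg10) (m1 := dg11) (m2 := dg12) (s := 2) h1 a2
    (fun e => tile_spec hj t_dg10 (by
      have := chkS_spec c_dg10 h0 h2 h3 h4
      rw [e]; convert this using 2; ring))
    (fun e => tile_spec hj t_dg11 (by
      have := chkS_spec c_dg11 h0 h2 h3 h4
      rw [e]; convert this using 2; ring))
    (fun e => tile_spec hj t_dg12 (by
      have := chkS_spec c_dg12 h0 h2 h3 h4
      rw [e]; convert this using 2; ring))
  unfold Red
  generalize hY : dsp dg10 dg11 dg12 2 (dsp dg20 dg21 dg22 16 (dsp dg30 dg31 dg32 98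
    (dsp dg40 dg41 dg42 544 (bsp bs00 bs01 2880 (bsp bs10 bs11 5760 (bsp bs20 bs21 11520
      (bsp bs30 bs31 23040 (bsp bs40 bs41 46080 (bsp bs50 bs51 92160 X))))))))) = Y at a1
  have hR : red64 X = Y <<< 4 := by rw [← hY]; rfl
  rw [hR, Nat.testBit_shiftLeft, decide_eq_true (by omega), Bool.true_and]
  rw [← a1]
  congr 1
  have : ix t = d0 + 5 * d1 + 25 * d2 + 125 * d3 + 625 * d4 := rfl
  rw [this]
  omega

end Pool.Agent.H94.Lift
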