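import Pool.Agent.H94.Lift.Main

/-!
# The search engine: the root
-/

set_option autoImplicit false

namespace Pool.Agent.H94.Lift

/-- check of a digit mask -/
def chkS (m base a b c d : ℕ) : Bool :=
  allBelow 3 fun x => allBelow 3 fun y => allBelow 3 fun z => allBelow 3 fun u =>
    tbit m (Nat.add base (Nat.add (Nat.mul a x) (Nat.add (Nat.mul b y) (Nat.add (Nat.mul c z)
      (Nat.mul d u)))))

/-- equality test -/
def chkEq (a b : ℕ) : Bool := Nat.beq a b

/-- `a = 2 ^ k - 1` -/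
def chkP (a k : ℕ) : Bool := Nat.beq a (Nat.sub (Nat.pow 2 k) 1)

/-! ### constants of the levels -/

lemma c_pn5 : chkP pn5 (Nat.mul 3136 11) = true := by decide +kernel

lemma c_lo5 : chkEq lo5 (LO 3135 11) = true := by decide +kernel

lemma c_tp5 : chkEq tp5 (TP 3135 11) = true := by decide +kernel

lemma c_pn4 : chkP pn4 (Nat.mul 3136 10) = true := by decide +kernel

lemma c_lo4 : chkEq lo4 (LO 3135 10) = true := by decide +kernel

lemma c_tp4 : chkEq tp4 (TP 3135 10) = true := by decide +kernel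

lemma c_pn3 : chkP pn3 (Nat.mul 3136 9) = true := by decide +kernel

lemma c_lo3 : chkEq lo3 (LO 3135 9) = true := by decide +kernel

lemma c_tp3 : chkEq tp3 (TP 3135 9) = true := by decide +kernel

lemma c_pn2 : chkP pn2 (Nat.mul 3136 8) = true := by decide +kernel

lemma c_lo2 : chkEq lo2 (LO 3135 8) = true := by decide +kernel

lemma c_tp2 : chkEq tp2 (TP 3135 8) = true := by decide +kernel

lemma c_pn1 : chkP pn1 (Nat.mul 3136 7) = true := by decide +kernel

lemma c_lo1 : chkEq lo1 (LO 3135 7) = true := by decide +kernel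

lemma c_tp1 : chkEq tp1 (TP 3135 7) = true := by decide +kernel

lemma c_cP : chkP cP 3136 = true := by decide +kernel

lemma c_notop : chkEq (Nat.land vvw16 (TP 3135 16)) 0 = true := by decide +kernel

lemma c_bs0 : allBelow 64 (fun j => Bool.rec (motive := fun _ => Bool)
    (Nat.beq (Nat.land (Nat.shiftRight bs00 (Nat.add (Nat.mul (Nat.mul (Nat.div j 2) 2) 3136)
      (Nat.mul (Nat.mod j 2) 256))) (Nat.sub (Nat.pow 2 243) 1)) (Nat.sub (Nat.pow 2 243) 1))
    (Nat.beq (Nat.land (Nat.shiftRight bs01 (Nat.add (Nat.mul (Nat.mul (Nat.div j 2) 2) 3136)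
      (Nat.mul (Nat.mod j 2) 256))) (Nat.sub (Nat.pow 2 243) 1)) (Nat.sub (Nat.pow 2 243) 1))
    (Nat.beq (Nat.mod (Nat.div j 1) 2) 1)) = true := by decide +kernel

lemma c_bs1 : allBelow 64 (fun j => Bool.rec (motive := fun _ => Bool)
    (Nat.beq (Nat.land (Nat.shiftRight bs10 (Nat.add (Nat.mul (Nat.mul (Nat.div j 4) 4) 3136)
      (Nat.mul (Nat.mod j 4) 256))) (Nat.sub (Nat.pow 2 243) 1)) (Nat.sub (Nat.pow 2 243) 1))
    (Nat.beq (Nat.land (Nat.shiftRight bs11 (Nat.add (Nat.mul (Nat.mul (Nat.div j 4) 4) 3136)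
      (Nat.mul (Nat.mod j 4) 256))) (Nat.sub (Nat.pow 2 243) 1)) (Nat.sub (Nat.pow 2 243) 1))
    (Nat.beq (Nat.mod (Nat.div j 2) 2) 1)) = true := by decide +kernel

lemma c_bs2 : allBelow 64 (fun j => Bool.rec (motive := fun _ => Bool)
    (Nat.beq (Nat.land (Nat.shiftRight bs20 (Nat.add (Nat.mul (Nat.mul (Nat.div j 8) 8) 3136)
      (Nat.mul (Nat.mod j 8) 256))) (Nat.sub (Nat.pow 2 243) 1)) (Nat.sub (Nat.pow 2 243) 1))
    (Nat.beq (Nat.land (Nat.shiftRight bs21 (Nat.add (Nat.mul (Nat.mul (Nat.div j 8) 8) 3136)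
      (Nat.mul (Nat.mod j 8) 256))) (Nat.sub (Nat.pow 2 243) 1)) (Nat.sub (Nat.pow 2 243) 1))
    (Nat.beq (Nat.mod (Nat.div j 4) 2) 1)) = true := by decide +kernel

lemma c_bs3 : allBelow 64 (fun j => Bool.rec (motive := fun _ => Bool)
    (Nat.beq (Nat.land (Nat.shiftRight bs30 (Nat.add (Nat.mul (Nat.mul (Nat.div j 16) 16) 3136)
      (Nat.mul (Nat.mod j 16) 256))) (Nat.sub (Nat.pow 2 243) 1)) (Nat.sub (Nat.pow 2 243) 1))
    (Nat.beq (Nat.land (Nat.shiftRight bs31 (Nat.add (Nat.mul (Nat.mul (Nat.div j 16) 16) 3136)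
      (Nat.mul (Nat.mod j 16) 256))) (Nat.sub (Nat.pow 2 243) 1)) (Nat.sub (Nat.pow 2 243) 1))
    (Nat.beq (Nat.mod (Nat.div j 8) 2) 1)) = true := by decide +kernel

lemma c_bs4 : allBelow 64 (fun j => Bool.rec (motive := fun _ => Bool)
    (Nat.beq (Nat.land (Nat.shiftRight bs40 (Nat.add (Nat.mul (Nat.mul (Nat.div j 32) 32) 3136)
      (Nat.mul (Nat.mod j 32) 256))) (Nat.sub (Nat.pow 2 243) 1)) (Nat.sub (Nat.pow 2 243) 1))
    (Nat.beq (Nat.land (Nat.shiftRight bs41 (Nat.add (Nat.mul (Nat.mul (Nat.div j 32) 32) 3136)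
      (Nat.mul (Nat.mod j 32) 256))) (Nat.sub (Nat.pow 2 243) 1)) (Nat.sub (Nat.pow 2 243) 1))
    (Nat.beq (Nat.mod (Nat.div j 16) 2) 1)) = true := by decide +kernel

lemma c_bs5 : allBelow 64 (fun j => Bool.rec (motive := fun _ => Bool)
    (Nat.beq (Nat.land (Nat.shiftRight bs50 (Nat.add (Nat.mul (Nat.mul (Nat.div j 64) 64) 3136)
      (Nat.mul (Nat.mod j 64) 256))) (Nat.sub (Nat.pow 2 243) 1)) (Nat.sub (Nat.pow 2 243) 1))
    (Nat.beq (Nat.land (Nat.shiftRight bs51 (Nat.add (Nat.mul (Nat.mul (Nat.div j 64) 64) 3136)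
      (Nat.mul (Nat.mod j 64) 256))) (Nat.sub (Nat.pow 2 243) 1)) (Nat.sub (Nat.pow 2 243) 1))
    (Nat.beq (Nat.mod (Nat.div j 32) 2) 1)) = true := by decide +kernel

lemma c_dg40 : chkS (Nat.land dg40 cP) 0 1 3 9 27 = true := by decide +kernel

lemma t_dg40 : Nat.beq dg40 (dbl 100352 (dbl 50176 (dbl 25088 (dbl 12544 (dbl 6272 (dbl 3136
    (Nat.land dg40 cP))))))) = true := by decide +kernel

lemma c_dg41 : chkS (Nat.land dg41 cP) 81 1 3 9 27 = true := by decide +kernel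

lemma t_dg41 : Nat.beq dg41 (dbl 100352 (dbl 50176 (dbl 25088 (dbl 12544 (dbl 6272 (dbl 3136
    (Nat.land dg41 cP))))))) = true := by decide +kernel

lemma c_dg42 : chkS (Nat.land dg42 cP) 162 1 3 9 27 = true := by decide +kernel

lemma t_dg42 : Nat.beq dg42 (dbl 100352 (dbl 50176 (dbl 25088 (dbl 12544 (dbl 6272 (dbl 3136
    (Nat.land dg42 cP))))))) = true := by decide +kernel

lemma c_dg30 : chkS (Nat.land dg30 cP) 0 1 3 9 625 = true := by decide +kernel

lemma t_dg30 : Nat.beq dg30 (dbl 100352 (dbl 50176 (dbl 25088 (dbl 12544 (dbl 6272 (dbl 3136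
    (Nat.land dg30 cP))))))) = true := by decide +kernel

lemma c_dg31 : chkS (Nat.land dg31 cP) 27 1 3 9 625 = true := by decide +kernel

lemma t_dg31 : Nat.beq dg31 (dbl 100352 (dbl 50176 (dbl 25088 (dbl 12544 (dbl 6272 (dbl 3136
    (Nat.land dg31 cP))))))) = true := by decide +kernel

lemma c_dg32 : chkS (Nat.land dg32 cP) 54 1 3 9 625 = true := by decide +kernel

lemma t_dg32 : Nat.beq dg32 (dbl 100352 (dbl 50176 (dbl 25088 (dbl 12544 (dbl 6272 (dbl 3136
    (Nat.land dg32 cP))))))) = true := by decide +kernel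

lemma c_dg20 : chkS (Nat.land dg20 cP) 0 1 3 125 625 = true := by decide +kernel

lemma t_dg20 : Nat.beq dg20 (dbl 100352 (dbl 50176 (dbl 25088 (dbl 12544 (dbl 6272 (dbl 3136
    (Nat.land dg20 cP))))))) = true := by decide +kernel

lemma c_dg21 : chkS (Nat.land dg21 cP) 9 1 3 125 625 = true := by decide +kernel

lemma t_dg21 : Nat.beq dg21 (dbl 100352 (dbl 50176 (dbl 25088 (dbl 12544 (dbl 6272 (dbl 3136
    (Nat.land dg21 cP))))))) = true := by decide +kernel

lemma c_dg22 : chkS (Nat.land dg22 cP) 18 1 3 125 625 = true := by decide +kernel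

lemma t_dg22 : Nat.beq dg22 (dbl 100352 (dbl 50176 (dbl 25088 (dbl 12544 (dbl 6272 (dbl 3136
    (Nat.land dg22 cP))))))) = true := by decide +kernel

lemma c_dg10 : chkS (Nat.land dg10 cP) 0 1 25 125 625 = true := by decide +kernel

lemma t_dg10 : Nat.beq dg10 (dbl 100352 (dbl 50176 (dbl 25088 (dbl 12544 (dbl 6272 (dbl 3136
    (Nat.land dg10 cP))))))) = true := by decide +kernel

lemma c_dg11 : chkS (Nat.land dg11 cP) 3 1 25 125 625 = true := by decide +kernel

lemma t_dg11 : Nat.beq dg11 (dbl 100352 (dbl 50176 (dbl 25088 (dbl 12544 (dbl 6272 (dbl 3136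
    (Nat.land dg11 cP))))))) = true := by decide +kernel

lemma c_dg12 : chkS (Nat.land dg12 cP) 6 1 25 125 625 = true := by decide +kernel

lemma t_dg12 : Nat.beq dg12 (dbl 100352 (dbl 50176 (dbl 25088 (dbl 12544 (dbl 6272 (dbl 3136
    (Nat.land dg12 cP))))))) = true := by decide +kernel

end Pool.Agent.H94.Lift
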