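import Pool.Agent.H94.Lift.MaskData

/-!
# The search engine: soundness of one level
-/

set_option autoImplicit false

namespace Pool.Agent.H94.Lift

/-! ### zero test -/

/-- the number with the lowest bit of each of `n` blocks of width `w + 1` -/
def gN (w : ℕ) : ℕ → ℕ
  | 0 => 0
  | n + 1 => 2 ^ (w + 1) * gN w n + 1

/-- low bits of `n` blocks -/
def LO (w n : ℕ) : ℕ := (2 ^ w - 1) * gN w n

/-- top bits of `n` blocks -/
def TP (w n : ℕ) : ℕ := 2 ^ w * gN w n

/-- the top bits of the first `n` blocks vanish -/
def NoTopW (w U n : ℕ) : Prop := ∀ j < n, U.testBit ((w + 1) * j + w) = false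

lemma LO_succ (w n : ℕ) : LO w (n + 1) = 2 ^ (w + 1) * LO w n + (2 ^ w - 1) := by
  unfold LO
  rw [gN]
  ring

lemma TP_succ (w n : ℕ) : TP w (n + 1) = 2 ^ (w + 1) * TP w n + 2 ^ w := by
  unfold TP
  rw [gN]
  ring

lemma add_LO {w n : ℕ} : ∀ {U : ℕ}, NoTopW w U n →
    (∀ j < n, ∃ k < w + 1, U.testBit ((w + 1) * j + k) = true) → ∀ j < n,
    (U + LO w n).testBit ((w + 1) * j + w) = true := by
  induction n with
  | zero => intro U _ _ j hj; omega
  | succ n ih =>
    intro U hU hk j hj
    have hdiv : U = 2 ^ (w + 1) * (U / 2 ^ (w + 1)) + U % 2 ^ (w + 1) := (Nat.div_add_mod _ _).symm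
    have hr : U % 2 ^ (w + 1) < 2 ^ (w + 1) := Nat.mod_lt _ (by positivity)
    have hbit : ∀ i, U.testBit i = if i < w + 1 then (U % 2 ^ (w + 1)).testBit i else
        (U / 2 ^ (w + 1)).testBit (i - (w + 1)) := by
      intro i
      conv_lhs => rw [hdiv]
      exact Nat.testBit_two_pow_mul_add _ hr i
    have h5 : (2 : ℕ) ^ (w + 1) = 2 ^ w + 2 ^ w := by
      rw [pow_succ]; ring
    have h6 : 0 < (2 : ℕ) ^ w := by positivity
    -- the first block
    have h1 : (U % 2 ^ (w + 1)).testBit w = false := by
      have := hU 0 (Nat.succ_pos n)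
      rw [Nat.mul_zero, Nat.zero_add, hbit, if_pos (by omega)] at this
      exact this
    have h2 : U % 2 ^ (w + 1) < 2 ^ w := by
      by_contra hcon
      push Not at hcon
      have h3 := Nat.testBit_two_pow_add_eq (U % 2 ^ (w + 1) - 2 ^ w) w
      rw [Nat.add_sub_cancel' hcon, h1] at h3
      have h4 : (U % 2 ^ (w + 1) - 2 ^ w).testBit w = false := by
        apply Nat.testBit_lt_two_pow
        omega
      rw [h4] at h3
      exact absurd h3 (by simp)
    have h3 : 1 ≤ U % 2 ^ (w + 1) := by
      obtain ⟨k, hk1, hk2⟩ := hk 0 (Nat.succ_pos n)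
      rw [Nat.mul_zero, Nat.zero_add, hbit, if_pos (by omega)] at hk2
      rcases Nat.eq_zero_or_pos (U % 2 ^ (w + 1)) with h | h
      · rw [h, Nat.zero_testBit] at hk2
        exact absurd hk2 (by simp)
      · exact h
    have hs : U + LO w (n + 1) = 2 ^ (w + 1) * (U / 2 ^ (w + 1) + LO w n) +
        (U % 2 ^ (w + 1) + (2 ^ w - 1)) := by
      rw [LO_succ]
      conv_lhs => rw [hdiv]
      ring
    have hlt : U % 2 ^ (w + 1) + (2 ^ w - 1) < 2 ^ (w + 1) := by omega
    rw [hs, Nat.testBit_two_pow_mul_add _ hlt]
    rcases Nat.eq_zero_or_pos j with h0 | h0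
    · subst h0
      rw [Nat.mul_zero, Nat.zero_add, if_pos (by omega)]
      have h7 : U % 2 ^ (w + 1) + (2 ^ w - 1) = 2 ^ w + (U % 2 ^ (w + 1) - 1) := by omega
      rw [h7, Nat.testBit_two_pow_add_eq, Nat.testBit_lt_two_pow (by omega)]
      rfl
    · obtain ⟨i, rfl⟩ : ∃ i, j = i + 1 := ⟨j - 1, by omega⟩
      have h8 : (w + 1) * (i + 1) + w = (w + 1) * i + w + (w + 1) := by ring
      rw [h8, if_neg (by omega), Nat.add_sub_cancel]
      refine ih ?_ ?_ i (by omega)
      · intro k hk'
        have := hU (k + 1) (by omega)
        have h9 : (w + 1) * (k + 1) + w = (w + 1) * k + w + (w + 1) := by ring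
        rw [h9, hbit, if_neg (by omega), Nat.add_sub_cancel] at this
        exact this
      · intro k hk'
        obtain ⟨l, hk1, hk2⟩ := hk (k + 1) (by omega)
        refine ⟨l, hk1, ?_⟩
        have h9 : (w + 1) * (k + 1) + l = (w + 1) * k + l + (w + 1) := by ring
        rw [h9, hbit, if_neg (by omega), Nat.add_sub_cancel] at hk2
        exact hk2

lemma testBit_TP {w n i : ℕ} (h : (TP w n).testBit i = true) : ∃ j < n, i = (w + 1) * j + w := by
  induction n generalizing i with
  | zero =>
    unfold TP at h
    rw [gN, mul_zero, Nat.zero_testBit] at h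
    exact absurd h (by simp)
  | succ n ih =>
    have hlt : (2 : ℕ) ^ w < 2 ^ (w + 1) := Nat.pow_lt_pow_right (by norm_num) (by omega)
    rw [TP_succ, Nat.testBit_two_pow_mul_add _ hlt] at h
    split_ifs at h with h1
    · rw [Nat.testBit_two_pow, decide_eq_true_eq] at h
      exact ⟨0, Nat.succ_pos n, by omega⟩
    · obtain ⟨j, hj, hj2⟩ := ih h
      refine ⟨j + 1, by omega, ?_⟩
      have h9 : (w + 1) * (j + 1) + w = (w + 1) * j + w + (w + 1) := by ring
      rw [h9, ← hj2]
      omega

/-- the zero test is passed if no block vanishes -/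
lemma alive_true {w n U : ℕ} (hU : NoTopW w U n)
    (hk : ∀ j < n, ∃ k < w + 1, U.testBit ((w + 1) * j + k) = true) :
    Nat.beq (Nat.land (Nat.add U (LO w n)) (TP w n)) (TP w n) = true := by
  have key : Nat.land (Nat.add U (LO w n)) (TP w n) = TP w n := by
    apply Nat.eq_of_testBit_eq
    intro i
    show ((U + LO w n) &&& TP w n).testBit i = (TP w n).testBit i
    rw [Nat.testBit_land]
    cases h : (TP w n).testBit i with
    | false => simp
    | true =>
      obtain ⟨j, hj, rfl⟩ := testBit_TP h
      rw [add_LO hU hk j hj]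
      rfl
  rw [key]
  exact Nat.beq_refl _

/-- the top bits of the first `n` blocks vanish -/
def NoTop (U n : ℕ) : Prop := ∀ j < n, U.testBit (3136 * j + 3135) = false

/-! ### one level -/

/-- constants of a level with `n` blocks after the branch variable and `c` blocks on the next
level -/
structure LevelOK (n c cP pn lo tp wn s0 sp sm mc v l0 l1 l2 l3 l4 : ℕ) : Prop where
  hcP : cP = 2 ^ 3136 - 1
  hpn : pn = 2 ^ (3136 * n) - 1
  hlo : lo = LO 3135 n
  htp : tp = TP 3135 n
  hwn : wn = 3136 * n
  hs0 : s0 = 3136 * (2 * n)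
  hsp : sp = 3136 * (2 * n + c)
  hsm : sm = 3136 * (2 * n + 2 * c)
  hmc : mc = 2 ^ (3136 * c) - 1
  hm : Masks c v l0 l1 l2 l3 l4

lemma map_shift (xs : List V) (a s : V) :
    xs.map (a + s + ·) = (xs.map (a + ·)).map (· + s) := by
  rw [List.map_map]
  refine List.map_congr_left fun x _ => ?_
  show a + s + x = a + x + s
  abel

lemma lay_shift (gs hs : List V) (t s : V) :
    lay gs hs (t + s) = (lay gs hs t).map (· + s) := by
  induction gs generalizing t with
  | nil => rfl
  | cons g gs ih =>
    have e1 : t + s + g = t + g + s := by abel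
    have e2 : t + s + two g = t + two g + s := by abel
    have h1 : lay (g :: gs) hs (t + s) = (gs ++ hs).map (t + s + g + ·) ++
      ((gs ++ hs).map (t + s + two g + ·) ++ (lay gs hs (t + s) ++ (lay gs hs (t + s + g) ++
        lay gs hs (t + s + two g)))) := rfl
    have h2 : lay (g :: gs) hs t = (gs ++ hs).map (t + g + ·) ++
      ((gs ++ hs).map (t + two g + ·) ++ (lay gs hs t ++ (lay gs hs (t + g) ++
        lay gs hs (t + two g)))) := rfl
    rw [h1, h2, e1, e2, map_shift _ (t + g) s, map_shift _ (t + two g) s, ih t, ih (t + g), ih (t + two g)]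
    generalize (gs ++ hs).map (t + g + ·) = a
    generalize (gs ++ hs).map (t + two g + ·) = b
    generalize lay gs hs t = c
    generalize lay gs hs (t + g) = d
    generalize lay gs hs (t + two g) = e
    simp only [List.map_append]

/-- the search from this state cannot end with `true` -/
def Snd {F : ℕ → V} {ext : ℕ → ℕ → ℕ → ℕ} {vio : ℕ → ℕ → Bool} (fb : FB F ext vio)
    (next : ℕ → ℕ → ℕ → ℕ → Bool) (gs hs : List V) : Prop :=
  ∀ U N A key, AllRed U (gs ++ hs) → NoTop U (gs ++ hs).length → AllPer N (lay gs hs 0) →
    fb.Ok A → next U N A key = true → False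

lemma red_of_per {N j : ℕ} {t : V} (h : Per N j t) : Red N j t := by
  refine h (fun i => (t i).val) (fun i => ?_) (fun i => ZMod.natCast_zmod_val _)
  have := val_lt3 (t i)
  show (t i).val < 5
  omega

lemma testBit_xor_ne {D p t : ℕ} (h : t ≠ 4 + p) (hD : D.testBit t = true) :
    (Nat.xor D (Nat.shiftLeft 16 p)).testBit t = true := by
  show (D ^^^ (16 <<< p)).testBit t = true
  rw [Nat.testBit_xor, hD]
  have h1 : (16 <<< p : ℕ) = 2 ^ (4 + p) := by
    rw [Nat.shiftLeft_eq, pow_add]; norm_num
  rw [h1, Nat.testBit_two_pow, decide_eq_false (by omega)]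
  rfl

theorem step_sound {F : ℕ → V} {ext : ℕ → ℕ → ℕ → ℕ} {vio : ℕ → ℕ → Bool} {fb : FB F ext vio}
    {n c cP pn lo tp wn s0 sp sm mc v l0 l1 l2 l3 l4 slot : ℕ} {gs hs : List V}
    {next : ℕ → ℕ → ℕ → ℕ → Bool}
    (hL : LevelOK n c cP pn lo tp wn s0 sp sm mc v l0 l1 l2 l3 l4)
    (hn : (gs ++ hs).length = n) (hc : (lay gs hs 0).length = c)
    (hnext : Snd fb next gs hs) :
    Snd fb (step cP pn lo tp wn s0 sp sm mc v l0 l1 l2 l3 l4 ext slot next) (F slot :: gs) hs := by
  intro U N A key hU hT hN hA hstep
  set g := F slot with hg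
  -- the parts of `N`
  have hgetN : ∀ j w, (lay (g :: gs) hs 0)[j]? = some w → Per N j w := hN
  have hlen1 : ((gs ++ hs).map (0 + g + ·)).length = n := by rw [List.length_map, hn]
  have hlen2 : ((gs ++ hs).map (0 + two g + ·)).length = n := by rw [List.length_map, hn]
  have hP : ∀ j x, (gs ++ hs)[j]? = some x → Per (Nat.land N pn) j (x + g) := by
    intro j x hx
    have hj : j < n := by
      rw [← hn]; exact (List.getElem?_eq_some_iff.mp hx).1
    rw [hL.hpn]
    refine per_mask ?_ hj
    have h1 : (lay (g :: gs) hs 0)[j]? = some (0 + g + x) := by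
      rw [lay, List.getElem?_append_left (by rw [hlen1]; exact hj), List.getElem?_map, hx]
      rfl
    have h2 := hgetN j _ h1
    have h3 : 0 + g + x = x + g := by abel
    rwa [h3] at h2
  have hM : ∀ j x, (gs ++ hs)[j]? = some x →
      Per (Nat.land (Nat.shiftRight N wn) pn) j (x + two g) := by
    intro j x hx
    have hj : j < n := by
      rw [← hn]; exact (List.getElem?_eq_some_iff.mp hx).1
    rw [hL.hpn, hL.hwn]
    refine per_mask (per_block ?_) hj
    have h1 : (lay (g :: gs) hs 0)[n + j]? = some (0 + two g + x) := by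
      rw [lay, List.getElem?_append_right (by rw [hlen1]; omega), hlen1,
        List.getElem?_append_left (by rw [hlen2]; omega), Nat.add_sub_cancel_left,
        List.getElem?_map, hx]
      rfl
    have h2 := hgetN (n + j) _ h1
    have h3 : 0 + two g + x = x + two g := by abel
    rwa [h3] at h2
  have hN0 : ∀ j x, (lay gs hs 0)[j]? = some x →
      Per (Nat.land (Nat.shiftRight N s0) mc) j x := by
    intro j x hx
    have hj : j < c := by
      rw [← hc]; exact (List.getElem?_eq_some_iff.mp hx).1
    rw [hL.hmc, hL.hs0]
    refine per_mask (per_block ?_) hj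
    have h1 : (lay (g :: gs) hs 0)[2 * n + j]? = some x := by
      rw [lay, List.getElem?_append_right (by rw [hlen1]; omega), hlen1,
        List.getElem?_append_right (by rw [hlen2]; omega), hlen2,
        List.getElem?_append_left (by rw [hc]; omega)]
      have : 2 * n + j - n - n = j := by omega
      rw [this, hx]
    exact hgetN (2 * n + j) _ h1
  have hNp : ∀ j x, (lay gs hs 0)[j]? = some x →
      Per (Nat.land (Nat.shiftRight N sp) mc) j (x + g) := by
    intro j x hx
    have hj : j < c := by
      rw [← hc]; exact (List.getElem?_eq_some_iff.mp hx).1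
    have hcg : (lay gs hs (0 + g)).length = c := by rw [length_lay, ← length_lay gs hs 0, hc]
    rw [hL.hmc, hL.hsp]
    refine per_mask (per_block ?_) hj
    have h1 : (lay (g :: gs) hs 0)[2 * n + c + j]? = some (x + g) := by
      rw [lay, List.getElem?_append_right (by rw [hlen1]; omega), hlen1,
        List.getElem?_append_right (by rw [hlen2]; omega), hlen2,
        List.getElem?_append_right (by rw [hc]; omega), hc,
        List.getElem?_append_left (by rw [hcg]; omega)]
      have : 2 * n + c + j - n - n - c = j := by omega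
      rw [this, lay_shift, List.getElem?_map, hx]
      rfl
    exact hgetN (2 * n + c + j) _ h1
  have hNm : ∀ j x, (lay gs hs 0)[j]? = some x →
      Per (Nat.shiftRight N sm) j (x + two g) := by
    intro j x hx
    have hj : j < c := by
      rw [← hc]; exact (List.getElem?_eq_some_iff.mp hx).1
    have hcg : (lay gs hs (0 + g)).length = c := by rw [length_lay, ← length_lay gs hs 0, hc]
    rw [hL.hsm]
    refine per_block ?_
    have h1 : (lay (g :: gs) hs 0)[2 * n + 2 * c + j]? = some (x + two g) := by
      rw [lay, List.getElem?_append_right (by rw [hlen1]; omega), hlen1,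
        List.getElem?_append_right (by rw [hlen2]; omega), hlen2,
        List.getElem?_append_right (by rw [hc]; omega), hc,
        List.getElem?_append_right (by rw [hcg]; omega), hcg]
      have : 2 * n + 2 * c + j - n - n - c - c = j := by omega
      rw [this, lay_shift, List.getElem?_map, hx]
      rfl
    exact hgetN (2 * n + 2 * c + j) _ h1
  -- the state after the assignment of the true value
  have hU1 : ∀ j x, (gs ++ hs)[j]? = some x → Red (Nat.shiftRight U 3136) j x := by
    intro j x hx
    have h1 : (F slot :: gs ++ hs)[1 + j]? = some x := by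
      rw [List.cons_append, Nat.add_comm 1 j, List.getElem?_cons_succ, hx]
    exact red_block (i := 1) (hU (1 + j) x h1)
  have hgood : ∀ (P M N0 Np Nm : ℕ), P = Nat.land N pn → M = Nat.land (Nat.shiftRight N wn) pn →
      N0 = Nat.land (Nat.shiftRight N s0) mc → Np = Nat.land (Nat.shiftRight N sp) mc →
      Nm = Nat.shiftRight N sm →
      AllRed (Nat.land (Nat.land (Nat.shiftRight P (ix g)) (Nat.shiftRight M (Nat.sub 1562 (ix g))))
        (Nat.shiftRight U 3136)) (gs ++ hs) ∧
      NoTop (Nat.land (Nat.land (Nat.shiftRight P (ix g)) (Nat.shiftRight M (Nat.sub 1562 (ix g))))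
        (Nat.shiftRight U 3136)) (gs ++ hs).length ∧
      AllPer (rep v l0 l1 l2 l3 l4 (Nat.land (Nat.land (Nat.shiftRight Np (ix g))
        (Nat.shiftRight Nm (Nat.sub 1562 (ix g)))) N0)) (lay gs hs 0) := by
    rintro P M N0 Np Nm rfl rfl rfl rfl rfl
    refine ⟨?_, ?_, ?_⟩
    · intro j x hx
      exact red_land (red_land (per_shift (hP j x hx)) (per_shift_two (hM j x hx))) (hU1 j x hx)
    · intro j hj
      show ((_ &&& _) &&& (U >>> 3136)).testBit _ = false
      rw [Nat.testBit_land, Nat.testBit_shiftRight]
      have h1 := hT (j + 1) (by simp only [List.cons_append, List.length_cons]; omega)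
      have h2 : 3136 + (3136 * j + 3135) = 3136 * (j + 1) + 3135 := by ring
      rw [h2, h1, Bool.and_false]
    · intro j x hx
      have hj : j < c := by
        rw [← hc]; exact (List.getElem?_eq_some_iff.mp hx).1
      exact per_rep hL.hm hj (red_land (red_land (per_shift (hNp j x hx))
        (per_shift_two (hNm j x hx))) (red_of_per (hN0 j x hx)))
  -- the loop
  have hD0 : (Nat.land U cP).testBit (4 + ix g) = true := by
    show (U &&& cP).testBit _ = true
    rw [Nat.testBit_land, hL.hcP, Nat.testBit_two_pow_sub_one]
    have h1 : Red U 0 g := hU 0 g rfl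
    unfold Red at h1
    have h2 : 3136 * 0 + 4 + ix g = 4 + ix g := by ring
    rw [h2] at h1
    have h3 := ix_le g
    rw [h1, decide_eq_true (by omega)]
    rfl
  have hloop : ∀ fuel D, D.testBit (4 + ix g) = true →
      (Nat.rec (motive := fun _ => ℕ → Bool) (fun D => Nat.beq D 0)
      (fun _ ih D => Bool.rec (motive := fun _ => Bool)
        ((fun p => (fun U' =>
          Bool.rec (motive := fun _ => Bool)
            (ih (Nat.xor D (Nat.shiftLeft 16 p)))
            (Bool.rec (motive := fun _ => Bool) false (ih (Nat.xor D (Nat.shiftLeft 16 p)))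
              (next U'
                (rep v l0 l1 l2 l3 l4
                  (Nat.land (Nat.land (Nat.shiftRight (Nat.land (Nat.shiftRight N sp) mc) p)
                    (Nat.shiftRight (Nat.shiftRight N sm) (Nat.sub 1562 p)))
                    (Nat.land (Nat.shiftRight N s0) mc)))
                (ext A slot p) (Nat.add (Nat.mul key 2048) p)))
             (Nat.beq (Nat.land (Nat.add U' lo) tp) tp))
            (Nat.land (Nat.land (Nat.shiftRight (Nat.land N pn) p)
              (Nat.shiftRight (Nat.land (Nat.shiftRight N wn) pn) (Nat.sub 1562 p)))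
              (Nat.shiftRight U 3136)))
          (Nat.land (Nat.shiftRight tb (Nat.mod (Nat.gcd D two1600) 25904)) 65535))
        true (Nat.beq D 0)) fuel D : Bool) = true → False := by
    intro fuel
    induction fuel with
    | zero =>
      intro D hD h
      have h1 : D = 0 := Nat.eq_of_beq_eq_true h
      rw [h1, Nat.zero_testBit] at hD
      exact absurd hD (by simp)
    | succ fuel ih =>
      intro D hD h
      have hne : Nat.beq D 0 = false := by
        cases hb : Nat.beq D 0 with
        | false => rfl
        | true =>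
          have h1 : D = 0 := Nat.eq_of_beq_eq_true hb
          rw [h1, Nat.zero_testBit] at hD
          exact absurd hD (by simp)
      simp only [hne] at h
      generalize hp : Nat.land (Nat.shiftRight tb (Nat.mod (Nat.gcd D two1600) 25904)) 65535 = p at h
      by_cases hpg : p = ix g
      · obtain ⟨a1, a2, a3⟩ := hgood _ _ _ _ _ rfl rfl rfl rfl rfl
        have hal : Nat.beq (Nat.land (Nat.add (Nat.land (Nat.land (Nat.shiftRight (Nat.land N pn) p)
              (Nat.shiftRight (Nat.land (Nat.shiftRight N wn) pn) (Nat.sub 1562 p)))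
              (Nat.shiftRight U 3136)) lo) tp) tp = true := by
          rw [hL.hlo, hL.htp, hpg, ← hn]
          refine alive_true (w := 3135) a2 ?_
          intro j hj
          have hx := List.getElem?_eq_getElem hj
          have h1 := a1 j _ hx
          refine ⟨4 + ix (gs ++ hs)[j], ?_, ?_⟩
          · have := ix_le (gs ++ hs)[j]
            omega
          · unfold Red at h1
            rw [← h1]
            congr 1
            ring
        simp only [hal] at h
        cases hnx : next (Nat.land (Nat.land (Nat.shiftRight (Nat.land N pn) p)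
              (Nat.shiftRight (Nat.land (Nat.shiftRight N wn) pn) (Nat.sub 1562 p)))
              (Nat.shiftRight U 3136)) (rep v l0 l1 l2 l3 l4
                  (Nat.land (Nat.land (Nat.shiftRight (Nat.land (Nat.shiftRight N sp) mc) p)
                    (Nat.shiftRight (Nat.shiftRight N sm) (Nat.sub 1562 p)))
                    (Nat.land (Nat.shiftRight N s0) mc)))
                (ext A slot p) (Nat.add (Nat.mul key 2048) p) with
        | false =>
          rw [hnx] at h
          exact absurd h (by simp)
        | true =>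
          rw [hpg] at hnx
          exact hnext _ _ _ _ a1 a2 a3 (fb.ext_ok A slot hA) hnx
      · have hD' : (Nat.xor D (Nat.shiftLeft 16 p)).testBit (4 + ix g) = true :=
          testBit_xor_ne (by omega) hD
        refine ih _ hD' ?_
        cases hal : Nat.beq (Nat.land (Nat.add (Nat.land (Nat.land (Nat.shiftRight (Nat.land N pn) p)
              (Nat.shiftRight (Nat.land (Nat.shiftRight N wn) pn) (Nat.sub 1562 p)))
              (Nat.shiftRight U 3136)) lo) tp) tp with
        | false =>
          simp only [hal] at h
          exact h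
        | true =>
          simp only [hal] at h
          cases hnx : next (Nat.land (Nat.land (Nat.shiftRight (Nat.land N pn) p)
              (Nat.shiftRight (Nat.land (Nat.shiftRight N wn) pn) (Nat.sub 1562 p)))
              (Nat.shiftRight U 3136)) (rep v l0 l1 l2 l3 l4
                  (Nat.land (Nat.land (Nat.shiftRight (Nat.land (Nat.shiftRight N sp) mc) p)
                    (Nat.shiftRight (Nat.shiftRight N sm) (Nat.sub 1562 p)))
                    (Nat.land (Nat.shiftRight N s0) mc)))
                (ext A slot p) (Nat.add (Nat.mul key 2048) p) with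
          | false =>
            rw [hnx] at h
            exact absurd h (by simp)
          | true =>
            rw [hnx] at h
            exact h
  exact hloop 243 (Nat.land U cP) hD0 hstep

end Pool.Agent.H94.Lift
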