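import Pool.Agent.H94.Lift.Root

/-!
# The search engine: the final theorem
-/

set_option autoImplicit false

namespace Pool.Agent.H94.Lift

lemma eqpow (a k : ℕ) (h : chkP a k = true) : a = 2 ^ k - 1 :=
  Nat.eq_of_beq_eq_true h

lemma eqpow2 (a k : ℕ) (h : chkP a (Nat.mul 3136 k) = true) :
    a = 2 ^ (3136 * k) - 1 := Nat.eq_of_beq_eq_true h

lemma eqmc (k c : ℕ) (h : k = 3136 * c) : Nat.sub (Nat.pow 2 k) 1 = 2 ^ (3136 * c) - 1 := by
  subst h
  rfl

lemma eqb (a b : ℕ) (h : chkEq a b = true) : a = b := Nat.eq_of_beq_eq_true h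

lemma lt_of_ble (a k : ℕ) (h : chkLt a k = true) : a < 2 ^ k := by
  have h1 : a ≤ 2 ^ k - 1 := Nat.le_of_ble_eq_true h
  have h2 : 0 < (2 : ℕ) ^ k := Nat.two_pow_pos k
  omega

lemma cP_eq : cP = 2 ^ 3136 - 1 := eqpow _ _ c_cP

lemma mkLevel {n c pn lo tp wn s0 sp sm k v l0 l1 l2 l3 l4 : ℕ}
    (hpn : chkP pn (Nat.mul 3136 n) = true)
    (hlo : chkEq lo (LO 3135 n) = true) (htp : chkEq tp (TP 3135 n) = true)
    (hwn : wn = 3136 * n) (hs0 : s0 = 3136 * (2 * n)) (hsp : sp = 3136 * (2 * n + c))
    (hsm : sm = 3136 * (2 * n + 2 * c)) (hk : k = 3136 * c) (hm : Masks c v l0 l1 l2 l3 l4) :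
    LevelOK n c cP pn lo tp wn s0 sp sm (Nat.sub (Nat.pow 2 k) 1) v l0 l1 l2 l3 l4 where
  hcP := cP_eq
  hpn := eqpow2 _ _ hpn
  hlo := eqb _ _ hlo
  htp := eqb _ _ htp
  hwn := hwn
  hs0 := hs0
  hsp := hsp
  hsm := hsm
  hmc := eqmc _ _ hk
  hm := hm

lemma level5 : LevelOK 11 596 cP pn5 lo5 tp5 34496 68992 1938048 3807104
    (Nat.sub (Nat.pow 2 1869056) 1) vvw1024 ll0w1024 ll1w1024 ll2w1024 ll3w1024 ll4w1024 :=
  mkLevel c_pn5 c_lo5 c_tp5 (by norm_num) (by norm_num) (by norm_num) (by norm_num)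
    (by norm_num) (masks1024.mono (by norm_num))

lemma level4 : LevelOK 10 192 cP pn4 lo4 tp4 31360 62720 664832 1266944
    (Nat.sub (Nat.pow 2 602112) 1) vvw256 ll0w256 ll1w256 ll2w256 ll3w256 ll4w256 :=
  mkLevel c_pn4 c_lo4 c_tp4 (by norm_num) (by norm_num) (by norm_num) (by norm_num)
    (by norm_num) (masks256.mono (by norm_num))

lemma level3 : LevelOK 9 58 cP pn3 lo3 tp3 28224 56448 238336 420224
    (Nat.sub (Nat.pow 2 181888) 1) vvw64 ll0w64 ll1w64 ll2w64 ll3w64 ll4w64 :=
  mkLevel c_pn3 c_lo3 c_tp3 (by norm_num) (by norm_num) (by norm_num) (by norm_num)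
    (by norm_num) (masks64.mono (by norm_num))

lemma level2 : LevelOK 8 14 cP pn2 lo2 tp2 25088 50176 94080 137984
    (Nat.sub (Nat.pow 2 43904) 1) vvw16 ll0w16 ll1w16 ll2w16 ll3w16 ll4w16 :=
  mkLevel c_pn2 c_lo2 c_tp2 (by norm_num) (by norm_num) (by norm_num) (by norm_num)
    (by norm_num) (masks16.mono (by norm_num))

lemma level1 : LevelOK 7 0 cP pn1 lo1 tp1 21952 43904 43904 43904
    (Nat.sub (Nat.pow 2 0) 1) 0 0 0 0 0 0 :=
  mkLevel c_pn1 c_lo1 c_tp1 (by norm_num) (by norm_num) (by norm_num) (by norm_num)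
    (by norm_num) (masks_zero _ _ _ _ _ _)

/-! ### the root -/

lemma leaves_cons (g : ℕ) (G : List ℕ) : leaves (g :: G) = ((List.range 64).map fun i =>
    Nat.land (Nat.shiftRight g (Nat.mul 256 i)) (Nat.sub (Nat.pow 2 256) 1)) ++ leaves G := by
  rw [leaves, List.flatMap_cons]
  rfl

lemma i3_lt (t : V) : i3 t < 243 := by
  have h0 := val_lt3 (t 0)
  have h1 := val_lt3 (t 1)
  have h2 := val_lt3 (t 2)
  have h3 := val_lt3 (t 3)
  have h4 := val_lt3 (t 4)
  unfold i3
  omega

lemma leaf_bit {g i : ℕ} {t : V} (h : (Nat.land (Nat.shiftRight g (Nat.mul 256 i))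
    (Nat.sub (Nat.pow 2 256) 1)).testBit (i3 t) = true) : g.testBit (256 * i + i3 t) = true := by
  have h1 : ((g >>> (256 * i)) &&& (2 ^ 256 - 1)).testBit (i3 t) = true := h
  rw [Nat.testBit_land, Nat.testBit_shiftRight, Bool.and_eq_true] at h1
  exact h1.1

lemma per_cat_left {s a b j : ℕ} {t : V} (h : Per a j t) : Per (cat s a b) j t := by
  intro d hd ht
  show (a ||| (b <<< s)).testBit _ = true
  rw [Nat.testBit_lor, h d hd ht]
  rfl

lemma per_cat_right {a b j : ℕ} {t : V} (h : Per b j t) : Per (cat 200704 a b) (64 + j) t := by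
  intro d hd ht
  show (a ||| (b <<< 200704)).testBit _ = true
  have e1 : 3136 * (64 + j) + 4 + cd d = 3136 * j + 4 + cd d + 200704 := by ring
  rw [Nat.testBit_lor, Nat.testBit_shiftLeft, e1, Nat.add_sub_cancel, h d hd ht,
    decide_eq_true (by omega)]
  simp

lemma per64_spec {X j : ℕ} (hj : j < 64) (t : V) (hX : X.testBit (256 * j + i3 t) = true) :
    Per (per64 X) j t := per_rep masks64 hj (red64_spec hj t hX)

lemma per_root (G : List ℕ) : ∀ (j l : ℕ) (t : V), (leaves G)[j]? = some l →
    l.testBit (i3 t) = true → Per (rootN G) j t := by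
  induction G with
  | nil => intro j l t h; simp [leaves] at h
  | cons g G ih =>
    intro j l t h hl
    rw [leaves_cons] at h
    have hr : rootN (g :: G) = cat 200704 (per64 g) (rootN G) := rfl
    rw [hr]
    rcases lt_or_ge j 64 with hj | hj
    · rw [List.getElem?_append_left (by rw [List.length_map, List.length_range]; exact hj),
        List.getElem?_map, List.getElem?_range hj] at h
      have h1 := Option.some.inj h
      rw [← h1] at hl
      exact per_cat_left (per64_spec hj t (leaf_bit hl))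
    · rw [List.getElem?_append_right (by rw [List.length_map, List.length_range]; exact hj),
        List.length_map, List.length_range] at h
      have h1 := per_cat_right (a := per64 g) (ih (j - 64) l t h hl)
      have h2 : 64 + (j - 64) = j := by omega
      rwa [h2] at h1

lemma red_rootU {Uc : ℕ} {j l : ℕ} {t : V} (hj : j < 16) (h : (leaves [Uc])[j]? = some l)
    (hl : l.testBit (i3 t) = true) : Red (rootU Uc) j t := by
  rw [leaves_cons, List.getElem?_append_left (by rw [List.length_map, List.length_range]; omega),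
        List.getElem?_map, List.getElem?_range (by omega)] at h
  have h1 := Option.some.inj h
  rw [← h1] at hl
  refine red_land (red64_spec (by omega) t (leaf_bit hl)) ?_
  exact maskV16 j hj _ (fun i => val_lt3 (t i))

lemma testBit_TP' (n w j : ℕ) (hj : j < n) : (TP w n).testBit ((w + 1) * j + w) = true := by
  induction n generalizing j with
  | zero => omega
  | succ n ih =>
    have hlt : (2 : ℕ) ^ w < 2 ^ (w + 1) := Nat.pow_lt_pow_right (by norm_num) (by omega)
    rw [TP_succ, Nat.testBit_two_pow_mul_add _ hlt]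
    rcases Nat.eq_zero_or_pos j with h0 | h0
    · subst h0
      rw [Nat.mul_zero, Nat.zero_add, if_pos (by omega), Nat.testBit_two_pow_self]
    · obtain ⟨k, rfl⟩ : ∃ k, j = k + 1 := ⟨j - 1, by omega⟩
      have h8 : (w + 1) * (k + 1) + w = (w + 1) * k + w + (w + 1) := by ring
      rw [h8, if_neg (by omega), Nat.add_sub_cancel]
      exact ih k (by omega)

lemma notop_of (a n w : ℕ) (h : chkEq (Nat.land a (TP w n)) 0 = true) (i : ℕ) (hi : i < n) :
    a.testBit ((w + 1) * i + w) = false := by
  have h1 : a &&& TP w n = 0 := Nat.eq_of_beq_eq_true h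
  have h2 : (a &&& TP w n).testBit ((w + 1) * i + w) = false := by
    rw [h1, Nat.zero_testBit]
  rw [Nat.testBit_land, testBit_TP' n w i hi, Bool.and_true] at h2
  exact h2

lemma top_vvw16 {i : ℕ} (hi : i < 16) : vvw16.testBit (3136 * i + 3135) = false :=
  notop_of vvw16 16 3135 c_notop i hi

lemma notop_rootU (Uc : ℕ) {i : ℕ} (hi : i < 16) :
    (rootU Uc).testBit (3136 * i + 3135) = false := by
  show (red64 Uc &&& vvw16).testBit _ = false
  rw [Nat.testBit_land, top_vvw16 hi, Bool.and_false]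

/-! ### the search -/

lemma red_cat_left {s a b j : ℕ} {t : V} (h : Red a j t) : Red (cat s a b) j t := by
  show (a ||| (b <<< s)).testBit _ = true
  unfold Red at h
  rw [Nat.testBit_lor, h]
  rfl

lemma red_cat_right {a b j : ℕ} {t : V} (h : Red b j t) : Red (cat 3136 a b) (j + 1) t := by
  show (a ||| (b <<< 3136)).testBit _ = true
  unfold Red at h
  have e1 : 3136 * (j + 1) + 4 + ix t = 3136 * j + 4 + ix t + 3136 := by ring
  rw [Nat.testBit_lor, Nat.testBit_shiftLeft, e1, Nat.add_sub_cancel, h,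
    decide_eq_true (by omega)]
  simp

lemma notop_cat {a b n : ℕ} (ha : a < 2 ^ 3135) (hb : ∀ j < n, b.testBit (3136 * j + 3135) = false) :
    ∀ j < n + 1, (cat 3136 a b).testBit (3136 * j + 3135) = false := by
  intro j hj
  show (a ||| (b <<< 3136)).testBit _ = false
  have h1 : a.testBit (3136 * j + 3135) = false :=
    Nat.testBit_lt_two_pow (lt_of_lt_of_le ha (Nat.pow_le_pow_right (by norm_num) (by omega)))
  rw [Nat.testBit_lor, h1, Nat.testBit_shiftLeft, Bool.false_or]
  rcases Nat.eq_zero_or_pos j with h0 | h0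
  · subst h0
    rw [decide_eq_false (by omega)]
    rfl
  · have h2 : 3136 * j + 3135 - 3136 = 3136 * (j - 1) + 3135 := by omega
    rw [h2, hb (j - 1) (by omega), Bool.and_false]

theorem search_sound {F : ℕ → V} {ext : ℕ → ℕ → ℕ → ℕ} {vio : ℕ → ℕ → Bool} (fb : FB F ext vio)
    {G : List ℕ} {Uc A D1 D2 : ℕ} {e : EX}
    (hU : ∀ j < 12, Red (rootU Uc) j (F j))
    (hN : AllPer (rootN G) (lay [F 0, F 1, F 2, F 3, F 4] [F 5, F 6, F 7, F 8, F 9, F 10, F 11] 0))
    (hD1 : D1 < 2 ^ 3135) (h1 : Red D1 0 (F 0)) (h2 : Red D2 0 (F 1)) (hA : fb.Ok A)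
    (h : search ext vio G Uc A D1 D2 e = true) : False := by
  have s0 := fin_sound fb e
  have s1 := step_sound (slot := 4) level1 rfl (by rw [length_lay]; norm_num [nblk]) s0
  have s2 := step_sound (slot := 3) level2 rfl (by rw [length_lay]; norm_num [nblk]) s1
  have s3 := step_sound (slot := 2) level3 rfl (by rw [length_lay]; norm_num [nblk]) s2
  have s4 := step_sound (slot := 1) level4 rfl (by rw [length_lay]; norm_num [nblk]) s3
  have s5 := step_sound (slot := 0) level5 rfl (by rw [length_lay]; norm_num [nblk]) s4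
  unfold search step5 step4 step3 step2 step1 at h
  refine s5 _ _ _ _ ?_ ?_ hN hA h
  · intro j v hv
    have hsub : ∀ i v, Red (rootU Uc) (i + 1) v → Red (Nat.shiftRight (rootU Uc) 3136) i v := by
      intro i v hi
      refine red_block (i := 1) ?_
      rw [Nat.add_comm]
      exact hi
    rcases j with _ | _ | j
    · have : v = F 0 := (Option.some.inj hv).symm
      rw [this]
      exact red_cat_left h1
    · have : v = F 1 := (Option.some.inj hv).symm
      rw [this]
      exact red_cat_right (red_cat_left (red_land h2 (hsub 0 _ (hU 1 (by norm_num)))))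
    · refine red_cat_right (red_cat_right ?_)
      refine red_block (i := 2) ?_
      have hj : j < 10 := by
        by_contra hcon
        have h3 : ([F 0, F 1, F 2, F 3, F 4] ++ [F 5, F 6, F 7, F 8, F 9, F 10, F 11] : List V)[j + 1 + 1]? =
            none := by
          refine List.getElem?_eq_none ?_
          simp only [List.length_append, List.length_cons, List.length_nil]
          omega
        have h4 : ([F 0, F 1, F 2, F 3, F 4] ++ [F 5, F 6, F 7, F 8, F 9, F 10, F 11] : List V)[j + 1 + 1]? =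
            some v := hv
        rw [h3] at h4
        exact absurd h4 (by simp)
      have h5 := hU (j + 2) (by omega)
      rw [Nat.add_comm 2 j]
      have : v = F (j + 2) := by
        interval_cases j <;> exact (Option.some.inj hv).symm
      rw [this]
      exact h5
  · have h3 : ∀ j < 10, (Nat.shiftRight (rootU Uc) 6272).testBit (3136 * j + 3135) = false := by
      intro j hj
      show (rootU Uc >>> 6272).testBit _ = false
      rw [Nat.testBit_shiftRight]
      have e1 : 6272 + (3136 * j + 3135) = 3136 * (j + 2) + 3135 := by ring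
      rw [e1]
      exact notop_rootU Uc (by omega)
    have h4 : ∀ j < 12, (Nat.land D2 (Nat.shiftRight (rootU Uc) 3136)).testBit (3136 * j + 3135) =
        false := by
      intro j hj
      show (D2 &&& (rootU Uc >>> 3136)).testBit _ = false
      rw [Nat.testBit_land, Nat.testBit_shiftRight]
      have e1 : 3136 + (3136 * j + 3135) = 3136 * (j + 1) + 3135 := by ring
      rw [e1, notop_rootU Uc (by omega), Bool.and_false]
    -- the second block may contain higher blocks of the root, which is harmless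
    have h5 : ∀ j < 11, (cat 3136 (Nat.land D2 (Nat.shiftRight (rootU Uc) 3136))
        (Nat.shiftRight (rootU Uc) 6272)).testBit (3136 * j + 3135) = false := by
      intro j hj
      show (Nat.land D2 (Nat.shiftRight (rootU Uc) 3136) ||| ((Nat.shiftRight (rootU Uc) 6272) <<< 3136)).testBit _ = false
      rw [Nat.testBit_lor, h4 j (by omega), Nat.testBit_shiftLeft, Bool.false_or]
      rcases Nat.eq_zero_or_pos j with h0 | h0
      · subst h0
        rw [decide_eq_false (by omega)]
        rfl
      · have e2 : 3136 * j + 3135 - 3136 = 3136 * (j - 1) + 3135 := by omega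
        rw [e2, h3 (j - 1) (by omega), Bool.and_false]
    exact notop_cat hD1 h5

lemma foldr_lor_bit {k : ℕ} : ∀ {l : List ℕ}, (l.foldr Nat.lor 0).testBit k = true →
    ∃ x ∈ l, x.testBit k = true := by
  intro l
  induction l with
  | nil => intro h; rw [List.foldr_nil, Nat.zero_testBit] at h; exact absurd h (by simp)
  | cons a l ih =>
    intro h
    have h1 : (a ||| l.foldr Nat.lor 0).testBit k = true := h
    rw [Nat.testBit_lor, Bool.or_eq_true] at h1
    rcases h1 with h1 | h1
    · exact ⟨a, List.mem_cons_self, h1⟩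
    · obtain ⟨x, hx, hx2⟩ := ih h1
      exact ⟨x, List.mem_cons_of_mem _ hx, hx2⟩

lemma foldr_lor_bit' {k : ℕ} : ∀ {l : List (ℕ × List ℕ)},
    (l.foldr (fun p s => Nat.lor p.1 s) 0).testBit k = true →
    ∃ x ∈ l, x.1.testBit k = true := by
  intro l
  induction l with
  | nil => intro h; rw [List.foldr_nil, Nat.zero_testBit] at h; exact absurd h (by simp)
  | cons a l ih =>
    intro h
    have h1 : (a.1 ||| l.foldr (fun p s => Nat.lor p.1 s) 0).testBit k = true := h
    rw [Nat.testBit_lor, Bool.or_eq_true] at h1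
    rcases h1 with h1 | h1
    · exact ⟨a, List.mem_cons_self, h1⟩
    · obtain ⟨x, hx, hx2⟩ := ih h1
      exact ⟨x, List.mem_cons_of_mem _ hx, hx2⟩

/-- **Soundness of the search.** -/
theorem stage_sound {F : ℕ → V} {ext : ℕ → ℕ → ℕ → ℕ} {vio : ℕ → ℕ → Bool} (fb : FB F ext vio)
    {G : List ℕ} {Uc A : ℕ} {L : List (ℕ × List ℕ)}
    (hU : List.Forall₂ (fun l t => l.testBit (i3 t) = true) ((leaves [Uc]).take 12)
      [F 0, F 1, F 2, F 3, F 4, F 5, F 6, F 7, F 8, F 9, F 10, F 11])
    (hN : List.Forall₂ (fun l t => l.testBit (i3 t) = true) ((leaves G).take 1810)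
      (lay [F 0, F 1, F 2, F 3, F 4] [F 5, F 6, F 7, F 8, F 9, F 10, F 11] 0))
    (hc : cover Uc L = true)
    (hp : ∀ p ∈ L, ∀ D2 ∈ p.2, ∃ e, search ext vio G Uc A p.1 D2 e = true)
    (hA : fb.Ok A) : False := by
  have hU' : ∀ j < 12, Red (rootU Uc) j (F j) := by
    intro j hj
    have hlen : ((leaves [Uc]).take 12).length = 12 := hU.length_eq
    have h1 : j < ((leaves [Uc]).take 12).length := by rw [hlen]; exact hj
    have h2 := List.Forall₂.get hU h1 (by rw [← hU.length_eq]; exact h1)
    have h3 : (leaves [Uc])[j]? = some (((leaves [Uc]).take 12).get ⟨j, h1⟩) := by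
      have h4 : ((leaves [Uc]).take 12)[j]? = some (((leaves [Uc]).take 12).get ⟨j, h1⟩) :=
        List.getElem?_eq_getElem h1
      rw [List.getElem?_take_of_lt hj] at h4
      exact h4
    refine red_rootU (by omega) h3 ?_
    have h5 : ([F 0, F 1, F 2, F 3, F 4, F 5, F 6, F 7, F 8, F 9, F 10, F 11] : List V).get
        ⟨j, by rw [← hU.length_eq]; exact h1⟩ = F j := by
      interval_cases j <;> rfl
    rw [h5] at h2
    exact h2
  have hN' : AllPer (rootN G)
      (lay [F 0, F 1, F 2, F 3, F 4] [F 5, F 6, F 7, F 8, F 9, F 10, F 11] 0) := by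
    intro j v hv
    have h0 := (List.getElem?_eq_some_iff.mp hv)
    obtain ⟨hj, hv'⟩ := h0
    have h1 : j < ((leaves G).take 1810).length := by rw [hN.length_eq]; exact hj
    have h2 := List.Forall₂.get hN h1 hj
    have hj2 : j < 1810 := lt_of_lt_of_le h1 (List.length_take_le _ _)
    have h4 : ((leaves G).take 1810)[j]? = some (((leaves G).take 1810).get ⟨j, h1⟩) :=
      List.getElem?_eq_getElem h1
    rw [List.getElem?_take_of_lt hj2] at h4
    refine per_root G j _ v h4 ?_
    have h5 : (lay [F 0, F 1, F 2, F 3, F 4] [F 5, F 6, F 7, F 8, F 9, F 10, F 11] 0).get ⟨j, hj⟩ =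
        v := hv'
    rw [h5] at h2
    exact h2
  unfold cover at hc
  rw [Bool.and_eq_true] at hc
  obtain ⟨hc1, hc2⟩ := hc
  -- the value of the first branch variable
  have hb0 : ((Nat.land (rootU Uc) cP).land (L.foldr (fun p s => Nat.lor p.1 s) 0)).testBit
      (3136 * 0 + 4 + ix (F 0)) = true := by
    rw [Nat.eq_of_beq_eq_true hc1]
    show (rootU Uc &&& cP).testBit _ = true
    have h1 := hU' 0 (by norm_num)
    unfold Red at h1
    have h3 := ix_le (F 0)
    rw [Nat.testBit_land, h1, cP_eq, Nat.testBit_two_pow_sub_one, decide_eq_true (by omega)]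
    rfl
  have hb1 : ((Nat.land (rootU Uc) cP) &&& (L.foldr (fun p s => Nat.lor p.1 s) 0)).testBit
      (3136 * 0 + 4 + ix (F 0)) = true := hb0
  rw [Nat.testBit_land, Bool.and_eq_true] at hb1
  obtain ⟨p, hpL, hpb⟩ := foldr_lor_bit' hb1.2
  have hc3 := List.all_eq_true.mp hc2 p hpL
  rw [Bool.and_eq_true] at hc3
  obtain ⟨hc3, hc4⟩ := hc3
  have hlt : p.1 < 2 ^ 3135 := lt_of_ble p.1 3135 hc3
  -- the value of the second branch variable
  have hv1 : (p.2.foldr Nat.lor 0 &&& vv).testBit (3136 * 0 + 4 + ix (F 1)) = true := by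
    have h1 : p.2.foldr Nat.lor 0 &&& vv = vv := Nat.eq_of_beq_eq_true hc4
    rw [h1]
    exact chkV_spec chk_vv 0 (by norm_num) _ (fun i => val_lt3 (F 1 i))
  rw [Nat.testBit_land, Bool.and_eq_true] at hv1
  obtain ⟨D2, hD2, hD2b⟩ := foldr_lor_bit hv1.1
  obtain ⟨e, he⟩ := hp p hpL D2 hD2
  exact search_sound fb hU' hN' hlt hpb hD2b hA he

end Pool.Agent.H94.Lift
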